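import Pool.Agent.H22.CM.Stm
import Pool.Graph.R_seed8.Results.MP_281388_al.OddOrder

set_option autoImplicit false

namespace H61.CM

open H22.CM Pool.Agent.Y382.PAR

theorem t_SOL (hRAD : S_RAD) (hBIG : S_BIG) (hSOC : S_SOC) (hHAL : S_HAL) (hCOM : S_COM) :
    S_SOL := by
  obtain ⟨M, hM⟩ : ∃ M : ℕ, M = 32 * (32).factorial := ⟨_, rfl⟩
  refine ⟨5 * M + 8, ?_⟩
  intro G _ _ _ hn hP
  by_cases hodd : Odd (Nat.card G)
  · refine (Pool.Agent.Results.MP_281388_al.OddOrder.main G hodd).mpr ⟨?_, ?_, ?_⟩ <;> omega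
  haveI : Fact (Nat.Prime 2) := ⟨Nat.prime_two⟩
  have heven : 2 ∣ Nat.card G := (Nat.not_odd_iff_even.mp hodd).two_dvd
  obtain ⟨P⟩ : Nonempty (Sylow 2 G) := inferInstance
  have hPne : (P : Subgroup G) ≠ ⊥ := P.ne_bot_of_dvd_card heven
  have hPc : ¬ IsCyclic (P : Subgroup G) := (hP P).resolve_left hPne
  obtain ⟨R, hRn, hRodd, hR1, hR2, hR3⟩ := hRAD G
  have hcard : Nat.card G = Nat.card (G ⧸ R) * Nat.card R :=
    Subgroup.card_eq_card_quotient_mul_card_subgroup R
  by_cases hR : Nat.card R ≠ 1 ∧ Nat.card R ≠ 3 ∧ Nat.card R ≠ 5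
  · have hall : AllPar R := (Pool.Agent.Results.MP_281388_al.OddOrder.main R hRodd).mpr hR
    have hcm : HasCM (G ⧸ R) := by
      haveI : Group.IsSolvable (G ⧸ R) := inferInstance
      refine hSOC (G ⧸ R) fun Q => Or.inr fun hQ => hPc ?_
      obtain ⟨e⟩ := hR2 P Q
      exact isCyclic_of_surjective e.symm e.symm.surjective
    exact Pool.Agent.Y410.PAR.t_EXT G R hcm hall
  · have hR5 : Nat.card R ≤ 5 := by
      by_contra hcon
      apply hR
      refine ⟨?_, ?_, ?_⟩ <;> omega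
    have h64 : 64 ≤ Nat.card P := by
      obtain ⟨k, hk⟩ := IsPGroup.iff_card.mp P.isPGroup'
      by_contra hcon
      have h32 : Nat.card P ≤ 32 := by
        rw [hk] at hcon ⊢
        have hk6 : k < 6 := by
          by_contra h6
          push Not at h6
          have h7 : (2 : ℕ) ^ 6 ≤ 2 ^ k := Nat.pow_le_pow_right (by norm_num) h6
          have h8 : (2 : ℕ) ^ 6 = 64 := by norm_num
          rw [h8] at h7
          exact hcon h7
        calc (2 : ℕ) ^ k ≤ 2 ^ 5 := Nat.pow_le_pow_right (by norm_num) (by omega)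
          _ = 32 := by norm_num
      haveI : Group.IsSolvable (G ⧸ R) := inferInstance
      have h1 := hBIG (G ⧸ R) 32 (fun T hT => (hR3 P T hT).trans h32) hR1
      rw [← hM] at h1
      have h2 : Nat.card G ≤ M * 5 := by
        rw [hcard]
        exact Nat.mul_le_mul h1 hR5
      omega
    obtain ⟨K, hK, m, hKm⟩ := hHAL G
    have hPm : Nat.card P = 2 ^ m := by
      obtain ⟨k, hk⟩ := IsPGroup.iff_card.mp P.isPGroup'
      apply Nat.dvd_antisymm
      · have h1 : Nat.card P ∣ Nat.card K * 2 ^ m := by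
          rw [hKm]
          exact Subgroup.card_subgroup_dvd_card (P : Subgroup G)
        rw [hk] at h1 ⊢
        have h2 : Nat.Coprime (2 ^ k) (Nat.card K) :=
          (Nat.Coprime.pow_left k (Nat.coprime_two_left.mpr hK))
        exact h2.dvd_of_dvd_mul_left h1
      · exact P.pow_dvd_card_of_pow_dvd_card (by rw [← hKm]; exact Dvd.intro_left _ rfl)
    exact hCOM G K P hK P.isPGroup' (by rw [hPm, hKm]) hPc (Or.inr h64)

end H61.CM
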