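import Pool.Agent.H61.CM.Wreath
import Pool.Agent.H61.IG.Basic

/-!
# From a composition factor to a chief factor with its wreath product action
-/

namespace Pool.Agent.H61.CM

open Equiv Pool.Agent.H61.IG

theorem exists_equiv {M S T : Type*} [Group M] [Group S] [Group T] (P : M →* T) (Q : M →* S)
    (hP : Function.Surjective P) (hQ : Function.Surjective Q) (h : ∀ x, P x = 1 ↔ Q x = 1) :
    ∃ φ : S ≃* T, ∀ x, P x = φ (Q x) := by
  have key : ∀ x y, Q x = Q y ↔ P x = P y := by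
    intro x y
    rw [← inv_mul_eq_one, ← map_inv, ← map_mul, ← h, map_mul, map_inv, inv_mul_eq_one]
  let f : S →* T := MonoidHom.mk' (fun s => P (Function.surjInv hQ s)) (by
    intro s t
    rw [← map_mul, ← key, map_mul, Function.surjInv_eq hQ, Function.surjInv_eq hQ,
      Function.surjInv_eq hQ])
  have hf : ∀ x, f (Q x) = P x := by
    intro x
    show P (Function.surjInv hQ (Q x)) = P x
    rw [← key, Function.surjInv_eq hQ]
  refine ⟨MulEquiv.ofBijective f ⟨?_, ?_⟩, fun x => (hf x).symm⟩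
  · intro s t hst
    obtain ⟨x, rfl⟩ := hQ s
    obtain ⟨y, rfl⟩ := hQ t
    rw [hf, hf] at hst
    rwa [key]
  · intro t
    obtain ⟨x, rfl⟩ := hP t
    exact ⟨Q x, hf x⟩

section simple

variable {S : Type*} [Group S] [IsSimpleGroup S]

theorem exists_comm (hS : ∃ a b : S, a * b ≠ b * a) {x : S} (hx : x ≠ 1) : ∃ s, s * x ≠ x * s := by
  by_contra hcon
  push Not at hcon
  have h1 : (Subgroup.center S) = ⊤ := by
    rcases (inferInstance : (Subgroup.center S).Normal).eq_bot_or_eq_top with h | h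
    · exfalso
      apply hx
      rw [← Subgroup.mem_bot, ← h, Subgroup.mem_center_iff]
      exact hcon
    · exact h
  obtain ⟨a, b, hab⟩ := hS
  apply hab
  have h2 : b ∈ Subgroup.center S := by rw [h1]; trivial
  exact Subgroup.mem_center_iff.1 h2 a

/-- a subnormal subgroup of a power of a non-abelian simple group is a partial product -/
theorem partial_prod (hS : ∃ a b : S, a * b ≠ b * a) {ι : Type*} [DecidableEq ι]
    {D : Subgroup (ι → S)} (hD : D.IsSubnormal) :
    ∀ x ∈ D, ∀ i, x i ≠ 1 → ∀ s, Pi.mulSingle i s ∈ D := by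
  induction hD with
  | top => intro x _ i _ s; trivial
  | step H K hle hKs hN ih =>
    intro x hx i hxi
    obtain ⟨s, hs⟩ := exists_comm hS hxi
    have hK := ih x (hle hx) i hxi
    have hconj : ∀ k ∈ K, ∀ h ∈ H, k * h * k⁻¹ ∈ H := by
      intro k hk h hh
      have := hN.conj_mem ⟨h, hle hh⟩ (Subgroup.mem_subgroupOf.2 hh) ⟨k, hk⟩
      exact Subgroup.mem_subgroupOf.1 this
    let P : Subgroup S := H.comap (MonoidHom.mulSingle (fun _ : ι => S) i)
    have hP : ∀ t, t ∈ P ↔ Pi.mulSingle i t ∈ H := fun _ => Iff.rfl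
    have h1 : s * x i * s⁻¹ * (x i)⁻¹ ∈ P := by
      rw [hP]
      have h2 := H.mul_mem (hconj _ (hK s) x hx) (H.inv_mem hx)
      have h3 : Pi.mulSingle i s * x * (Pi.mulSingle i s)⁻¹ * x⁻¹ =
          Pi.mulSingle i (s * x i * s⁻¹ * (x i)⁻¹) := by
        funext j
        by_cases hj : j = i
        · subst hj; simp
        · simp [Pi.mulSingle_eq_of_ne hj]
      rwa [h3] at h2
    have hPn : P.Normal := by
      refine ⟨fun t ht u => ?_⟩
      rw [hP] at ht ⊢
      have h2 := hconj _ (hK u) _ ht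
      rwa [← Pi.mulSingle_inv, ← Pi.mulSingle_mul, ← Pi.mulSingle_mul] at h2
    have hPt : P = ⊤ := by
      rcases hPn.eq_bot_or_eq_top with h | h
      · exfalso
        rw [h, Subgroup.mem_bot, mul_inv_eq_one, mul_inv_eq_iff_eq_mul] at h1
        exact hs h1
      · exact h
    intro t
    rw [← hP, hPt]; trivial

/-- homomorphisms onto a non-abelian simple group with distinct kernels are independent -/
theorem indep (hS : ∃ a b : S, a * b ≠ b * a) {M ι : Type*} [Group M] [Finite ι]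
    (F : ι → (M →* S)) (hF : ∀ i, Function.Surjective (F i))
    (hne : ∀ i j, i ≠ j → ∃ x, F j x = 1 ∧ F i x ≠ 1) :
    ∀ y : ι → S, ∃ x, ∀ i, F i x = y i := by
  classical
  cases nonempty_fintype ι
  have hnor : ∀ i (P : Subgroup M), P.Normal → (∃ x ∈ P, F i x ≠ 1) → P.map (F i) = ⊤ := by
    intro i P hP hx
    have h1 : (P.map (F i)).Normal := hP.map _ (hF i)
    rcases h1.eq_bot_or_eq_top with h | h
    · obtain ⟨x, hx, hx1⟩ := hx
      exfalso
      apply hx1
      rw [← Subgroup.mem_bot, ← h]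
      exact ⟨x, hx, rfl⟩
    · exact h
  have hker : ∀ J : Finset ι, ((⨅ j ∈ J, (F j).ker : Subgroup M)).Normal := by
    intro J
    exact Subgroup.normal_iInf_normal fun j => Subgroup.normal_iInf_normal fun _ => inferInstance
  have hmem : ∀ (J : Finset ι) x, x ∈ (⨅ j ∈ J, (F j).ker : Subgroup M) ↔ ∀ j ∈ J, F j x = 1 := by
    intro J x
    simp only [Subgroup.mem_iInf, MonoidHom.mem_ker]
  have hstep : ∀ i, ∀ J : Finset ι, i ∉ J →
      (⨅ j ∈ J, (F j).ker : Subgroup M).map (F i) = ⊤ := by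
    intro i J
    induction J using Finset.induction_on with
    | empty =>
      intro _
      apply hnor _ _ (hker _)
      obtain ⟨s, hs⟩ := exists_ne (1 : S)
      obtain ⟨x, rfl⟩ := hF i s
      exact ⟨x, by rw [hmem]; simp, hs⟩
    | insert j J hj ih =>
      intro hi
      rw [Finset.mem_insert, not_or] at hi
      apply hnor _ _ (hker _)
      obtain ⟨a, b, hab⟩ := hS
      have h1 := ih hi.2
      have ha : a ∈ (⨅ j ∈ J, (F j).ker : Subgroup M).map (F i) := by rw [h1]; trivial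
      obtain ⟨x, hx, rfl⟩ := ha
      have h2 : ((F j).ker).map (F i) = ⊤ := by
        apply hnor _ _ inferInstance
        obtain ⟨z, hz, hz'⟩ := hne i j hi.1
        exact ⟨z, hz, hz'⟩
      have hb : b ∈ ((F j).ker).map (F i) := by rw [h2]; trivial
      obtain ⟨y, hy, rfl⟩ := hb
      have hy' : F j y = 1 := hy
      have hx' := (hmem J x).1 hx
      refine ⟨x * y * x⁻¹ * y⁻¹, ?_, ?_⟩
      · rw [hmem]
        intro l hl
        rw [Finset.mem_insert] at hl
        simp only [map_mul, map_inv]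
        rcases hl with rfl | hl
        · rw [hy']; simp
        · rw [hx' l hl]; simp
      · simp only [map_mul, map_inv]
        intro h
        rw [mul_inv_eq_one, mul_inv_eq_iff_eq_mul] at h
        exact hab h
  intro y
  let θ : M →* (ι → S) := MonoidHom.pi F
  have hθ : y ∈ θ.range := by
    apply Subgroup.pi_mem_of_mulSingle_mem
    intro i
    have h1 := hstep i (Finset.univ.erase i) (Finset.notMem_erase i _)
    have h2 : y i ∈ (⨅ j ∈ Finset.univ.erase i, (F j).ker : Subgroup M).map (F i) := by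
      rw [h1]; trivial
    obtain ⟨x, hx, hxy⟩ := h2
    refine ⟨x, ?_⟩
    funext j
    show F j x = _
    by_cases hj : j = i
    · subst hj; rw [hxy]; simp
    · rw [Pi.mulSingle_eq_of_ne hj]
      exact (hmem _ x).1 hx j (Finset.mem_erase.2 ⟨hj, Finset.mem_univ _⟩)
  obtain ⟨x, hx⟩ := hθ
  exact ⟨x, fun i => congrFun hx i⟩

end simple

universe u v

/-- the wreath product structure of a non-abelian chief factor -/
theorem chief_wr {G : Type u} [Group G] [Finite G] {N M : Subgroup G} (hN : N.Normal)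
    (hM : M.Normal) (hNM : N < M) (hmin : ∀ L : Subgroup G, L.Normal → N ≤ L → L < M → L = N)
    (hnc : ∃ x ∈ M, ∃ y ∈ M, x * y * x⁻¹ * y⁻¹ ∉ N) :
    ∃ (S : Type u) (_ : Group S) (_ : Finite S) (_ : IsSimpleGroup S)
      (ι : Type u) (_ : Finite ι) (_ : Nonempty ι) (W : Wr G S ι),
      (∃ a b : S, a * b ≠ b * a) ∧ W.M = M ∧ ∀ x : W.M, W.θ x = 1 ↔ (x : G) ∈ N := by
  classical
  let P : Set (Subgroup M) := {A | A.Normal ∧ N.subgroupOf M ≤ A ∧ A ≠ ⊤}
  have hP : P.Nonempty := by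
    refine ⟨N.subgroupOf M, inferInstance, le_rfl, ?_⟩
    intro h
    rw [Subgroup.subgroupOf_eq_top] at h
    exact hNM.not_ge h
  obtain ⟨A, hA⟩ := Set.Finite.exists_maximal (Set.toFinite P) hP
  obtain ⟨hAn, hNA, hAt⟩ := hA.1
  let S := M ⧸ A
  let π : M →* S := QuotientGroup.mk' A
  have hπ : Function.Surjective π := QuotientGroup.mk'_surjective A
  have hπ1 : ∀ x, π x = 1 ↔ x ∈ A := fun x => QuotientGroup.eq_one_iff x
  have hS : IsSimpleGroup S := by
    have : Nontrivial S := by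
      obtain ⟨x, hx⟩ : ∃ x, x ∉ A := by
        by_contra hcon
        push Not at hcon
        exact hAt (by ext x; simp [hcon x])
      exact ⟨π x, 1, fun h => hx ((hπ1 x).1 h)⟩
    refine ⟨fun B hB => ?_⟩
    by_cases hBt : B.comap π = ⊤
    · right
      rw [eq_top_iff]
      intro s _
      obtain ⟨x, rfl⟩ := hπ s
      have : x ∈ B.comap π := by rw [hBt]; trivial
      exact this
    · left
      have hAB : A ≤ B.comap π := by
        intro x hx
        rw [Subgroup.mem_comap, (hπ1 x).2 hx]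
        exact B.one_mem
      have hBP : B.comap π ∈ P := ⟨inferInstance, hNA.trans hAB, hBt⟩
      have hBA := hA.2 hBP hAB
      rw [eq_bot_iff]
      intro s hs
      obtain ⟨x, rfl⟩ := hπ s
      rw [Subgroup.mem_bot, hπ1]
      exact hBA hs
  let A' : Subgroup G := A.map M.subtype
  have hA' : ∀ x : M, (x : G) ∈ A' ↔ x ∈ A := by
    intro x
    constructor
    · rintro ⟨y, hy, hyx⟩
      have : y = x := Subtype.ext hyx
      rwa [← this]
    · intro h
      exact ⟨x, h, rfl⟩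
  have hA'M : A' ≤ M := by
    rintro _ ⟨y, -, rfl⟩
    exact y.2
  have hA'lt : A' < M := by
    refine lt_of_le_of_ne hA'M ?_
    intro h
    apply hAt
    rw [eq_top_iff]
    intro x _
    rw [← hA', h]
    exact x.2
  have hNA' : N ≤ A' := by
    intro x hx
    have h1 : (⟨x, hNM.le hx⟩ : M) ∈ A := hNA (Subgroup.mem_subgroupOf.2 hx)
    exact (hA' _).2 h1
  let ι := {B : Subgroup G // ∃ g : G, cj g A' = B}
  let B0 : ι := ⟨A', 1, cj_one _⟩
  have hNB : ∀ B : ι, N ≤ B.1 := by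
    rintro ⟨B, g, rfl⟩
    rw [← cj_normal g hN]
    exact cj_mono g hNA'
  have hBM : ∀ B : ι, B.1 ≤ M := by
    rintro ⟨B, g, rfl⟩
    rw [← cj_normal g hM]
    exact cj_mono g hA'M
  have hF : ∀ B : ι, ∃ F : M →* S, Function.Surjective F ∧ ∀ x, F x = 1 ↔ (x : G) ∈ B.1 := by
    rintro ⟨B, g, rfl⟩
    refine ⟨π.comp (MulAut.conjNormal g⁻¹).toMonoidHom, ?_, ?_⟩
    · exact hπ.comp (MulAut.conjNormal g⁻¹ : MulAut M).surjective
    · intro x
      rw [MonoidHom.comp_apply, hπ1, ← hA', mem_cj]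
      show ((MulAut.conjNormal g⁻¹ x : M) : G) ∈ A' ↔ _
      rw [MulAut.conjNormal_apply, inv_inv]
  choose F hFs hF1 using hF
  -- the intersection of the kernels
  have hker : ∀ x : M, (∀ B, F B x = 1) → (x : G) ∈ N := by
    let L : Subgroup G := ⨅ B : ι, B.1
    have hL : L.Normal := by
      refine ⟨fun x hx g => ?_⟩
      rw [Subgroup.mem_iInf] at hx ⊢
      rintro ⟨B, h, rfl⟩
      have h1 := hx ⟨cj (g⁻¹ * h) A', _, rfl⟩
      simp only [mem_cj] at h1 ⊢
      have h2 : h⁻¹ * (g * x * g⁻¹) * h = (g⁻¹ * h)⁻¹ * x * (g⁻¹ * h) := by group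
      rwa [h2]
    have hLA : L ≤ A' := iInf_le (fun B : ι => B.1) B0
    have hLN : L = N := hmin L hL (le_iInf hNB) (lt_of_le_of_lt hLA hA'lt)
    intro x hx
    rw [← hLN, Subgroup.mem_iInf]
    intro B
    exact (hF1 B x).1 (hx B)
  have hSnc : ∃ a b : S, a * b ≠ b * a := by
    obtain ⟨x, hx, y, hy, hxy⟩ := hnc
    by_contra hcon
    push Not at hcon
    apply hxy
    have := hker (⟨x, hx⟩ * ⟨y, hy⟩ * ⟨x, hx⟩⁻¹ * ⟨y, hy⟩⁻¹) (fun B => by
      simp only [map_mul, map_inv]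
      rw [hcon (F B ⟨x, hx⟩) (F B ⟨y, hy⟩)]; group)
    exact this
  have hne : ∀ i j : ι, i ≠ j → ∃ x, F j x = 1 ∧ F i x ≠ 1 := by
    intro i j hij
    by_contra hcon
    push Not at hcon
    apply hij
    have hle : j.1 ≤ i.1 := by
      intro x hx
      have h1 : F j ⟨x, hBM j hx⟩ = 1 := (hF1 j _).2 hx
      exact (hF1 i _).1 (hcon _ h1)
    have hcard : ∀ B : ι, Nat.card B.1 = Nat.card A' := by
      rintro ⟨B, g, rfl⟩
      exact Nat.card_congr (Subgroup.equivMapOfInjective A' (MulAut.conj g).toMonoidHom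
        (MulAut.conj g).injective).toEquiv.symm
    apply Subtype.ext
    exact (Subgroup.eq_of_le_of_card_ge hle (by rw [hcard, hcard])).symm
  let θ : M →* (ι → S) := MonoidHom.pi F
  have hθ : ∀ x B, θ x B = F B x := fun _ _ => rfl
  let κ : G →* Perm ι := MonoidHom.mk' (fun g =>
    { toFun := fun B => ⟨cj g B.1, by
        obtain ⟨h, hh⟩ := B.2
        exact ⟨g * h, by rw [cj_mul, hh]⟩⟩
      invFun := fun B => ⟨cj g⁻¹ B.1, by
        obtain ⟨h, hh⟩ := B.2
        exact ⟨g⁻¹ * h, by rw [cj_mul, hh]⟩⟩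
      left_inv := fun B => Subtype.ext (cj_inv_cj _ _)
      right_inv := fun B => Subtype.ext (cj_cj_inv _ _) })
    (by
      intro g h
      ext B : 2
      exact cj_mul g h B.1)
  have hκ : ∀ g B, (κ g B).1 = cj g B.1 := fun _ _ => rfl
  have ha : ∀ g B, ∃ a : S ≃* S, ∀ x : M,
      ((F (κ g B)).comp (MulAut.conjNormal g).toMonoidHom) x = a (F B x) := by
    intro g B
    apply exists_equiv
    · exact (hFs _).comp (MulAut.conjNormal g : MulAut M).surjective
    · exact hFs B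
    · intro x
      rw [MonoidHom.comp_apply, hF1, hF1, hκ, mem_cj]
      show g⁻¹ * ((MulAut.conjNormal g x : M) : G) * g ∈ B.1 ↔ _
      rw [MulAut.conjNormal_apply]
      have : g⁻¹ * (g * (x : G) * g⁻¹) * g = x := by group
      rw [this]
  choose a ha using ha
  refine ⟨S, inferInstance, inferInstance, hS, ι, inferInstance, ⟨B0⟩,
    { M := M, nor := hM, θ := θ, surj := ?_, κ := κ, a := a, compat := ?_, trans := ?_ },
    hSnc, rfl, ?_⟩
  · intro y
    obtain ⟨x, hx⟩ := indep hSnc F hFs hne y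
    exact ⟨x, funext hx⟩
  · intro g B x y hxy
    rw [hθ, hθ, ← ha]
    have : y = MulAut.conjNormal g x := by
      apply Subtype.ext
      rw [MulAut.conjNormal_apply, hxy]
    rw [this]
    rfl
  · rintro ⟨B, g, rfl⟩ ⟨B', h, rfl⟩
    refine ⟨h * g⁻¹, Subtype.ext ?_⟩
    rw [hκ, cj_mul]
    show cj h (cj g⁻¹ (cj g A')) = _
    rw [cj_inv_cj]
  · intro x
    constructor
    · intro h
      exact hker x fun B => congrFun h B
    · intro h
      funext B
      exact (hF1 B x).2 (hNB B h)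

/-- transport along an isomorphism -/
def Wr.congr {G S T ι : Type*} [Group G] [Group S] [Group T] (W : Wr G S ι) (e : S ≃* T) :
    Wr G T ι where
  M := W.M
  nor := W.nor
  θ := (e.toMonoidHom.compLeft ι).comp W.θ
  surj := by
    intro y
    obtain ⟨x, hx⟩ := W.surj (fun i => e.symm (y i))
    refine ⟨x, funext fun i => ?_⟩
    show e (W.θ x i) = y i
    rw [hx, e.apply_symm_apply]
  κ := W.κ
  a := fun g i => (e.symm.trans (W.a g i)).trans e
  compat := by
    intro g i x y h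
    show e (W.θ y (W.κ g i)) = e (W.a g i (e.symm (e (W.θ x i))))
    rw [W.compat g i x y h, e.symm_apply_apply]
  trans := W.trans

/-- a non-abelian composition factor occurs in a chief factor -/
theorem extract {G : Type u} {T : Type v} [Group G] [Finite G] [Group T] [IsSimpleGroup T]
    (hT : ∃ a b : T, a * b ≠ b * a) {K : Subgroup G} (hK : K.IsSubnormal) (f : K →* T)
    (hf : Function.Surjective f) :
    ∃ (ι : Type u) (_ : Finite ι) (_ : Nonempty ι), Nonempty (Wr G T ι) := by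
  classical
  let P : Set (Subgroup G) := {N | N.Normal ∧ ∀ x : K, (x : G) ∈ N → f x = 1}
  have hP : P.Nonempty := by
    refine ⟨⊥, inferInstance, ?_⟩
    intro x hx
    have : x = 1 := Subtype.ext (Subgroup.mem_bot.1 hx)
    rw [this, map_one]
  obtain ⟨N, hNmax⟩ := Set.Finite.exists_maximal (Set.toFinite P) hP
  obtain ⟨hN, hNf⟩ := hNmax.1
  obtain ⟨t₀, ht₀⟩ := exists_ne (1 : T)
  let Q : Set (Subgroup G) := {M | M.Normal ∧ N < M}
  have hQ : Q.Nonempty := by
    refine ⟨⊤, inferInstance, lt_top_iff_ne_top.2 ?_⟩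
    rintro rfl
    obtain ⟨x, hx⟩ := hf t₀
    exact ht₀ (by rw [← hx]; exact hNf x trivial)
  obtain ⟨M, hMmin⟩ := Set.Finite.exists_minimal (Set.toFinite Q) hQ
  obtain ⟨hM, hNM⟩ := hMmin.1
  have hmin : ∀ L : Subgroup G, L.Normal → N ≤ L → L < M → L = N := by
    intro L hL hNL hLM
    by_contra hne
    have h1 : L ∈ Q := ⟨hL, lt_of_le_of_ne hNL (Ne.symm hne)⟩
    exact hLM.not_ge (hMmin.2 h1 hLM.le)
  have hMf : ∃ x : K, (x : G) ∈ M ∧ f x ≠ 1 := by
    by_contra hcon
    push Not at hcon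
    exact hNM.not_ge (hNmax.2 ⟨hM, hcon⟩ hNM.le)
  -- `f (K ∩ M) = T`
  have hfM : ∀ t, ∃ x : K, (x : G) ∈ M ∧ f x = t := by
    let R : Subgroup T := (M.subgroupOf K).map f
    have hR : R.Normal := (inferInstance : (M.subgroupOf K).Normal).map _ hf
    have hRt : R = ⊤ := by
      rcases hR.eq_bot_or_eq_top with h | h
      · exfalso
        obtain ⟨x, hx, hx1⟩ := hMf
        apply hx1
        rw [← Subgroup.mem_bot, ← h]
        exact ⟨x, hx, rfl⟩
      · exact h
    intro t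
    have : t ∈ R := by rw [hRt]; trivial
    obtain ⟨x, hx, rfl⟩ := this
    exact ⟨x, hx, rfl⟩
  have hnc : ∃ x ∈ M, ∃ y ∈ M, x * y * x⁻¹ * y⁻¹ ∉ N := by
    obtain ⟨a, b, hab⟩ := hT
    obtain ⟨x, hx, rfl⟩ := hfM a
    obtain ⟨y, hy, rfl⟩ := hfM b
    refine ⟨x, hx, y, hy, fun h => hab ?_⟩
    have h1 := hNf (x * y * x⁻¹ * y⁻¹) h
    simp only [map_mul, map_inv] at h1
    rwa [mul_inv_eq_one, mul_inv_eq_iff_eq_mul] at h1
  obtain ⟨S, _, _, _, ι, hι, hι', W, hS, rfl, hθ⟩ := chief_wr hN hM hNM hmin hnc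
  have hwd : ∀ x y : K, ∀ (hx : (x : G) ∈ W.M) (hy : (y : G) ∈ W.M),
      W.θ ⟨x, hx⟩ = W.θ ⟨y, hy⟩ → f x = f y := by
    intro x y hx hy h
    have h1 : W.θ (⟨x, hx⟩⁻¹ * ⟨y, hy⟩) = 1 := by
      rw [map_mul, map_inv, h, inv_mul_cancel]
    rw [hθ] at h1
    have h2 := hNf (x⁻¹ * y) h1
    rw [map_mul, map_inv, inv_mul_eq_one] at h2
    exact h2
  let D : Subgroup (ι → S) := (K.subgroupOf W.M).map W.θ
  have hD : D.IsSubnormal := hK.subgroupOf.map W.surj
  have hDm : ∀ x : K, ∀ hx : (x : G) ∈ W.M, W.θ ⟨x, hx⟩ ∈ D := fun x hx =>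
    ⟨⟨x, hx⟩, Subgroup.mem_subgroupOf.2 x.2, rfl⟩
  have hDe : ∀ d ∈ D, ∃ x : K, ∃ hx : (x : G) ∈ W.M, W.θ ⟨x, hx⟩ = d := by
    rintro d ⟨y, hy, rfl⟩
    exact ⟨⟨y, Subgroup.mem_subgroupOf.1 hy⟩, y.2, rfl⟩
  have hpp := partial_prod hS hD
  -- a factor on which `f` is not trivial
  have hi : ∃ i s, ∃ x : K, ∃ hx : (x : G) ∈ W.M, W.θ ⟨x, hx⟩ = Pi.mulSingle i s ∧ f x ≠ 1 := by
    by_contra hcon
    push Not at hcon
    let E : Subgroup (ι → S) := ((f.ker.map K.subtype).subgroupOf W.M).map W.θ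
    have hE : ∀ d ∈ D, d ∈ E := by
      intro d hd
      cases nonempty_fintype ι
      apply Subgroup.pi_mem_of_mulSingle_mem
      intro i
      by_cases hdi : d i = 1
      · rw [hdi, Pi.mulSingle_one]
        exact E.one_mem
      · obtain ⟨x, hx, hxd⟩ := hDe _ (hpp d hd i hdi (d i))
        rw [← hxd]
        refine ⟨⟨x, hx⟩, ?_, rfl⟩
        exact Subgroup.mem_subgroupOf.2 ⟨x, hcon i _ x hx hxd, rfl⟩
    obtain ⟨x, hx, hxt⟩ := hfM t₀
    obtain ⟨y, hy, hyx⟩ := hE _ (hDm x hx)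
    obtain ⟨z, hz, hzy⟩ := Subgroup.mem_subgroupOf.1 hy
    have hzy' : (z : G) = y := hzy
    have hzM : (z : G) ∈ W.M := by rw [hzy']; exact y.2
    apply ht₀
    rw [← hxt, ← show f z = 1 from hz]
    apply hwd x z hx hzM
    rw [← hyx]
    congr 1
    exact Subtype.ext hzy'.symm
  obtain ⟨i, s₀, x₀, hx₀, hθx₀, hfx₀⟩ := hi
  have hs₀ : s₀ ≠ 1 := by
    rintro rfl
    apply hfx₀
    apply hNf
    exact (hθ ⟨x₀, hx₀⟩).1 (by rw [hθx₀, Pi.mulSingle_one])
  have hall : ∀ s, Pi.mulSingle i s ∈ D := by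
    apply hpp _ (hDm x₀ hx₀) i
    rw [hθx₀, Pi.mulSingle_eq_same]
    exact hs₀
  choose x hxM hxθ using fun s => hDe _ (hall s)
  let h : S →* T := MonoidHom.mk' (fun s => f (x s)) (by
    intro s t
    rw [← map_mul]
    apply hwd _ _ (hxM _) (W.M.mul_mem (hxM s) (hxM t))
    rw [hxθ]
    have : (⟨((x s * x t : K) : G), W.M.mul_mem (hxM s) (hxM t)⟩ : W.M) =
        ⟨x s, hxM s⟩ * ⟨x t, hxM t⟩ := rfl
    rw [this, map_mul, hxθ, hxθ, ← Pi.mulSingle_mul])
  have hh : ∀ s, h s = f (x s) := fun _ => rfl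
  have hinj : Function.Injective h := by
    have h1 : h.ker ≠ ⊤ := by
      intro htop
      have h2 : s₀ ∈ h.ker := by rw [htop]; trivial
      rw [MonoidHom.mem_ker, hh] at h2
      apply hfx₀
      rw [← h2]
      apply hwd _ _ hx₀ (hxM s₀)
      rw [hxθ, hθx₀]
    rw [← MonoidHom.ker_eq_bot_iff]
    exact (inferInstance : h.ker.Normal).eq_bot_or_eq_top.resolve_right h1
  have hrn : h.range.Normal := by
    refine ⟨?_⟩
    rintro _ ⟨s, rfl⟩ t
    obtain ⟨y, hyM, rfl⟩ := hfM t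
    refine ⟨W.θ ⟨y, hyM⟩ i * s * (W.θ ⟨y, hyM⟩ i)⁻¹, ?_⟩
    rw [hh, hh, ← map_inv, ← map_mul, ← map_mul]
    apply hwd _ _ (hxM _) (W.M.mul_mem (W.M.mul_mem hyM (hxM s)) (W.M.inv_mem hyM))
    rw [hxθ]
    have : (⟨((y * x s * y⁻¹ : K) : G), W.M.mul_mem (W.M.mul_mem hyM (hxM s))
        (W.M.inv_mem hyM)⟩ : W.M) = ⟨y, hyM⟩ * ⟨x s, hxM s⟩ * ⟨y, hyM⟩⁻¹ := rfl
    rw [this, map_mul, map_mul, map_inv, hxθ]
    funext j
    by_cases hj : j = i
    · subst hj; simp
    · simp [Pi.mulSingle_eq_of_ne hj]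
  have hsurj : Function.Surjective h := by
    rw [← MonoidHom.range_eq_top]
    rcases hrn.eq_bot_or_eq_top with h1 | h1
    · exfalso
      apply hs₀
      apply hinj
      rw [map_one, ← Subgroup.mem_bot, ← h1]
      exact ⟨s₀, rfl⟩
    · exact h1
  exact ⟨ι, hι, hι', ⟨W.congr (MulEquiv.ofBijective h ⟨hinj, hsurj⟩)⟩⟩

end Pool.Agent.H61.CM
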