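import Mathlib

/-!
# Permutation groups of odd order and degree `s + 2`
-/

namespace Pool.Agent.H61.CM

open Equiv MulAction

theorem le_card_of_moved {X : Type*} [DecidableEq X] {r : ℕ} (hr : r.Prime) (τ : Perm X)
    (hτ : τ ^ r = 1) {x : X} (hx : τ x ≠ x) (S : Finset X) (hS : ∀ i : ℕ, (τ ^ i) x ∈ S) :
    r ≤ S.card := by
  have hper : Function.IsPeriodicPt τ r x := by
    have : (τ^[r]) x = (τ ^ r) x := by rw [Perm.iterate_eq_pow]
    rw [Function.IsPeriodicPt, Function.IsFixedPt, this, hτ]; rfl
  have hmp : Function.minimalPeriod τ x = r := by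
    rcases (Nat.dvd_prime hr).1 hper.minimalPeriod_dvd with h | h
    · exfalso
      apply hx
      have := Function.isPeriodicPt_minimalPeriod τ x
      rw [h] at this
      exact this
    · exact h
  have hc : ((Finset.range r).image (fun i => (τ^[i]) x)).card = r := by
    rw [Finset.card_image_of_injOn, Finset.card_range]
    intro i hi i' hi' h
    have := Function.iterate_injOn_Iio_minimalPeriod (f := τ) (x := x)
    rw [hmp] at this
    apply this _ _ h
    · simpa using hi
    · simpa using hi'
  rw [← hc]
  apply Finset.card_le_card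
  intro y hy
  obtain ⟨i, -, rfl⟩ := Finset.mem_image.1 hy
  rw [Perm.iterate_eq_pow]
  exact hS i

theorem odd_two {P O : Type*} [Group P] [Finite P] [Fintype O] [DecidableEq O] [MulAction P O]
    [IsPretransitive P O] {s : ℕ} (hs : s.Prime) (h3 : 3 ≤ s) (hO : Fintype.card O = s + 2)
    (h2 : ¬ 2 ∣ Nat.card P) (c : P) (hc : c ^ s = 1) (y : O) (hy : c • y ≠ y) : False := by
  classical
  have hodd : s % 2 = 1 := by
    rcases hs.eq_two_or_odd with h | h
    · omega
    · exact h
  let τ : Perm O := toPerm c
  have hτi : ∀ (i : ℕ) o, (τ ^ i) o = c ^ i • o := by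
    intro i o
    have : τ ^ i = toPerm (c ^ i) := (map_pow (toPermHom P O) c i).symm
    rw [this]; rfl
  have hτ : τ ^ s = 1 := by
    ext o
    rw [hτi, hc, one_smul]; rfl
  let S0 : Finset O := Finset.univ.filter (fun o => ∃ i : ℕ, c ^ i • y = o)
  have hS0 : ∀ o, o ∈ S0 ↔ ∃ i : ℕ, c ^ i • y = o := by intro o; simp [S0]
  have h1 : s ≤ S0.card := le_card_of_moved hs τ hτ hy S0 (fun i => by
    rw [hS0]; exact ⟨i, (hτi i y).symm⟩)
  have hinv : ∀ o, ∀ i : ℕ, c ^ i • o ∈ S0 → o ∈ S0 := by
    intro o i h
    rw [hS0] at h ⊢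
    obtain ⟨j, hj⟩ := h
    refine ⟨j + (s - 1) * i, ?_⟩
    have h5 : c ^ ((s - 1) * i) * c ^ i = 1 := by
      rw [← pow_add]
      have : (s - 1) * i + i = s * i := by
        obtain ⟨s', rfl⟩ : ∃ s', s = s' + 1 := ⟨s - 1, by omega⟩
        rw [Nat.add_sub_cancel]; ring
      rw [this, pow_mul, hc, one_pow]
    rw [add_comm, pow_add, mul_smul, hj, ← mul_smul, h5, one_smul]
  have hfixc : ∀ o, o ∉ S0 → c • o = o := by
    intro o ho
    by_contra hne
    have h4 := le_card_of_moved hs τ hτ (x := o) hne S0ᶜ (fun i => by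
      rw [Finset.mem_compl, hτi]
      exact fun h => ho (hinv o i h))
    rw [Finset.card_compl, hO] at h4
    omega
  have hyS : y ∈ S0 := by rw [hS0]; exact ⟨0, by simp⟩
  have hmv : ∀ o ∈ S0, c • o ≠ o := by
    intro o ho h
    rw [hS0] at ho
    obtain ⟨i, rfl⟩ := ho
    apply hy
    rw [← mul_smul, ← pow_succ', pow_succ, mul_smul] at h
    exact smul_left_cancel _ h
  have hcS : S0.card = s := by
    have h5 := τ.sum_cycleType
    -- count fixed points modulo `s`
    have : Fact s.Prime := ⟨hs⟩
    have h6 : Fintype.card O ≡ Fintype.card (Function.fixedPoints τ) [MOD s] := by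
      let τe : Function.End O := τ.toFun
      have hτe : ∀ (n : ℕ) (o : O), (τe ^ n) o = (τ ^ n) o := by
        intro n
        induction n with
        | zero => intro o; rfl
        | succ n ih => intro o; rw [pow_succ, pow_succ]; exact ih (τ o)
      apply Equiv.Perm.card_fixedPoints_modEq (f := τe) (p := s) (n := 1)
      rw [pow_one]
      funext o
      rw [hτe, hτ]; rfl
    have h7 : Fintype.card (Function.fixedPoints τ) = S0ᶜ.card := by
      rw [← Fintype.card_coe]
      apply Fintype.card_congr
      apply Equiv.subtypeEquivRight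
      intro o
      rw [Finset.mem_compl]
      constructor
      · intro h ho
        exact hmv o ho h
      · intro h
        exact hfixc o h
    rw [h7, hO, Finset.card_compl, hO] at h6
    have h8 : S0.card ≤ s + 2 := by
      rw [← hO]; exact Finset.card_le_univ _
    have h9 : s + 2 - S0.card ≤ 2 := by omega
    have h10 : (s + 2) % s = (s + 2 - S0.card) % s := h6
    rw [Nat.add_mod_left, Nat.mod_eq_of_lt (show 2 < s by omega),
      Nat.mod_eq_of_lt (show s + 2 - S0.card < s by omega)] at h10
    omega
  have hcomp : S0ᶜ.card = 2 := by rw [Finset.card_compl, hO, hcS]; omega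
  obtain ⟨x, z, hxz, hxzS⟩ := Finset.card_eq_two.1 hcomp
  have hx0 : x ∉ S0 := by rw [← Finset.mem_compl, hxzS]; simp
  have hz0 : z ∉ S0 := by rw [← Finset.mem_compl, hxzS]; simp
  have hall : ∀ o, o ∉ S0 → o = x ∨ o = z := by
    intro o ho
    rw [← Finset.mem_compl, hxzS] at ho
    simpa using ho
  have hcx : c • x = x := hfixc x hx0
  -- the stabiliser of `x` fixes `z`
  have hz : ∀ p : P, p • x = x → p • z = z := by
    intro p hp
    by_contra hne
    have hpzx : p • z ≠ x := by
      intro h
      rw [← hp] at h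
      exact hxz (smul_left_cancel _ h).symm
    have hpz : p • z ∈ S0 := by
      by_contra h
      rcases hall _ h with h | h
      · exact hpzx h
      · exact hne h
    rw [hS0] at hpz
    obtain ⟨i, hi⟩ := hpz
    have horb : ∀ o, o ≠ x → o ∈ orbit (stabilizer P x) y := by
      intro o ho
      have hcm : ∀ j : ℕ, c ^ j ∈ stabilizer P x := by
        intro j
        exact Subgroup.pow_mem _ (show c ∈ stabilizer P x from hcx) j
      by_cases hoS : o ∈ S0
      · rw [hS0] at hoS
        obtain ⟨j, rfl⟩ := hoS
        exact ⟨⟨c ^ j, hcm j⟩, rfl⟩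
      · rcases hall o hoS with h | h
        · exact absurd h ho
        · rw [h]
          refine ⟨⟨p⁻¹ * c ^ i, Subgroup.mul_mem _ (Subgroup.inv_mem _ hp) (hcm i)⟩, ?_⟩
          show (p⁻¹ * c ^ i) • y = z
          rw [mul_smul, hi, inv_smul_smul]
    have hoc : Nat.card (orbit (stabilizer P x) y) = s + 1 := by
      have h4 : orbit (stabilizer P x) y = {x}ᶜ := by
        ext o
        rw [Set.mem_compl_iff, Set.mem_singleton_iff]
        constructor
        · rintro ⟨⟨q, hq⟩, rfl⟩ h
          have h5 : q • y = x := h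
          rw [← show q • x = x from hq] at h5
          have h6 := smul_left_cancel _ h5
          rw [h6] at hyS
          exact hx0 hyS
        · exact horb o
      rw [h4, Nat.card_coe_set_eq, Set.ncard_compl, Set.ncard_singleton, Nat.card_eq_fintype_card,
        hO]
      omega
    apply h2
    have h5 : Nat.card (orbit (stabilizer P x) y) ∣ Nat.card (stabilizer P x) :=
      Nat.card_coe_set_eq (orbit (stabilizer P x) y) ▸
        (by rw [← MulAction.index_stabilizer]; exact Subgroup.index_dvd_card _)
    rw [hoc] at h5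
    exact (Dvd.intro ((s + 1) / 2) (by omega)).trans
      (h5.trans (Subgroup.card_subgroup_dvd_card _))
  -- the equivariant involution
  have hp : ∀ o : O, ∃ p : P, p • x = o := fun o => exists_smul_eq P x o
  choose p hp using hp
  let f : O → O := fun o => p o • z
  have hf : ∀ (q : P) o, f (q • o) = q • f o := by
    intro q o
    show p (q • o) • z = q • p o • z
    have h4 : ((p (q • o))⁻¹ * (q * p o)) • x = x := by
      rw [mul_smul, mul_smul, hp o, inv_smul_eq_iff, hp]
    have h5 := hz _ h4
    rw [mul_smul, inv_smul_eq_iff, mul_smul] at h5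
    exact h5.symm
  have hfx : f x = z := hz _ (hp x)
  have hPeq : stabilizer P x = stabilizer P z := by
    have hle : stabilizer P x ≤ stabilizer P z := fun q hq => hz q hq
    apply Subgroup.eq_of_le_of_card_ge hle
    have h4 : (stabilizer P x).index = (stabilizer P z).index := by
      rw [MulAction.index_stabilizer, MulAction.index_stabilizer, orbit_eq_univ, orbit_eq_univ]
    have h5 := (stabilizer P x).card_mul_index
    have h6 := (stabilizer P z).card_mul_index
    rw [h4] at h5
    have h7 : 0 < (stabilizer P z).index := Nat.pos_of_ne_zero Subgroup.index_ne_zero_of_finite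
    exact (Nat.eq_of_mul_eq_mul_right h7 (h6.trans h5.symm)).le
  have hfz : f z = x := by
    have h4 : c • f z = f z := by
      rw [← hf]
      congr 1
      have : c ∈ stabilizer P z := by rw [← hPeq]; exact hcx
      exact this
    have h5 : f z ∉ S0 := fun h => hmv _ h h4
    rcases hall _ h5 with h6 | h6
    · exact h6
    · exfalso
      -- `f z = z` means `p z • z = z`
      have h7 : p z ∈ stabilizer P z := h6
      rw [← hPeq] at h7
      have h8 : p z • x = x := h7
      rw [hp] at h8
      exact hxz h8.symm
  have hff : ∀ o, f (f o) = o := by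
    intro o
    obtain ⟨q, rfl⟩ := exists_smul_eq P x o
    have h4 : f (q • x) = q • z := by rw [hf, hfx]
    rw [h4, hf, hfz]
  let F : Perm O := ⟨f, f, hff, hff⟩
  have : Fact (Nat.Prime 2) := ⟨Nat.prime_two⟩
  obtain ⟨o, ho⟩ := Equiv.Perm.exists_fixed_point_of_prime (p := 2) (n := 1) (σ := F)
    (by rw [hO]; omega) (by
      rw [pow_one]
      ext o
      rw [pow_two, Perm.mul_apply]
      exact hff o)
  have ho' : f o = o := ho
  obtain ⟨q, rfl⟩ := exists_smul_eq P x o
  rw [hf, hfx] at ho'
  exact hxz (smul_left_cancel _ ho').symm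

end Pool.Agent.H61.CM
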