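import Pool.Agent.H61.IG.AltLib

/-!
# A variant of `transfer` for small degrees
-/

open Equiv Function Module

namespace Pool.Agent.H61.IG.Alt

section
variable {k m : ℕ} {H : Type*} [Group H]

theorem transfer' (hm : 4 ≤ m) {φ ψ : H →* Perm (Pt k m)} (hφ : Full φ) (_hψ : Full ψ)
    (h3t : ∀ h, Is3 (φ h) → Is3 (ψ h))
    (hgen : ∀ h, φ h ∈ Subgroup.closure {t | ∃ a b c : Pt k m, a.1 = b.1 ∧ a.1 = c.1 ∧ a ≠ b ∧
      a ≠ c ∧ b ≠ c ∧ t = cyc a b c})
    (hk : ∀ h, φ h = 1 ↔ ψ h = 1) :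
    ∃ ρ : Perm (Pt k m), ∀ h, ψ h = ρ * φ h * ρ⁻¹ := by
  classical
  let o : Fin m := ⟨0, by omega⟩
  let i : Fin m := ⟨1, by omega⟩
  let z2 : Fin m := ⟨2, by omega⟩
  let z3 : Fin m := ⟨3, by omega⟩
  have hoi : o ≠ i := by simp [o, i]
  have ho2 : z2 ≠ o := by simp [o, z2]
  have hi2 : z2 ≠ i := by simp [i, z2]
  have ho3 : z3 ≠ o := by simp [o, z3]
  have hi3 : z3 ≠ i := by simp [i, z3]
  have h23 : z2 ≠ z3 := by simp [z2, z3]
  have keq : ∀ g h, φ g = φ h ↔ ψ g = ψ h := by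
    intro g h
    rw [← mul_inv_eq_one, ← map_inv, ← map_mul, hk, map_mul, map_inv, mul_inv_eq_one]
  have pne : ∀ {j : Fin k} {x y : Fin m}, x ≠ y → (j, x) ≠ (j, y) :=
    fun h h' => h (Prod.ext_iff.mp h').2
  have hτ : ∀ j : Fin k, ∀ x : Fin m, ∃ h : H, x ≠ o → x ≠ i → φ h = cyc (j, o) (j, i) (j, x) := by
    intro j x
    by_cases hx : x ≠ o ∧ x ≠ i
    · obtain ⟨h, hh⟩ := hφ.2 (j, o) (j, i) (j, x) rfl rfl (pne hoi) (pne hx.1.symm) (pne hx.2.symm)
      exact ⟨h, fun _ _ => hh⟩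
    · exact ⟨1, fun h1 h2 => absurd ⟨h1, h2⟩ hx⟩
  choose τ hτ using hτ
  have hT3 : ∀ j x, x ≠ o → x ≠ i → Is3 (ψ (τ j x)) := by
    intro j x h1 h2
    apply h3t
    rw [hτ j x h1 h2]
    exact is3_cyc (pne hoi) (pne h1.symm) (pne h2.symm)
  have hTE : ∀ j x y, x ≠ o → x ≠ i → y ≠ o → y ≠ i → x ≠ y →
      ∃ p, ψ (τ j x) p = ψ (τ j y) p ∧ ψ (τ j x) p ≠ p := by
    intro j x y h1 h2 h3 h4 h5
    have e1 : φ (τ j x) * φ (τ j y) = dt (j, o) (j, x) (j, i) (j, y) := by
      rw [hτ j x h1 h2, hτ j y h3 h4]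
      exact cyc_dt (pne hoi) (pne h1.symm) (pne h2.symm) (pne h3.symm) (pne h4.symm) (pne h5)
    apply edge (hT3 j x h1 h2) (hT3 j y h3 h4)
    · rw [← map_mul, ← map_pow, ← hk, map_pow, map_mul, e1, pow_two]
      exact dt_sq (pne hoi) (pne h3.symm) (pne h2) (pne h5)
    · rw [← map_mul, Ne, ← hk, map_mul, e1]
      intro h
      have := congrArg (fun f : Perm (Pt k m) => f (j, o)) h
      simp only [Perm.one_apply] at this
      rw [dt_p (pne hoi) (pne h3.symm)] at this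
      exact pne h1 this
  have hTne : ∀ j x y, x ≠ o → x ≠ i → y ≠ o → y ≠ i → x ≠ y → ψ (τ j x) ≠ ψ (τ j y) := by
    intro j x y h1 h2 h3 h4 h5
    rw [Ne, ← keq, hτ j x h1 h2, hτ j y h3 h4]
    intro h
    have := congrArg (fun f : Perm (Pt k m) => f (j, i)) h
    rw [cyc_b (pne h1.symm) (pne h2.symm), cyc_b (pne h3.symm) (pne h4.symm)] at this
    exact pne h5 this
  have hp : ∀ j, ∃ p, ψ (τ j z2) p = ψ (τ j z3) p ∧ ψ (τ j z2) p ≠ p :=
    fun j => hTE j z2 z3 ho2 hi2 ho3 hi3 h23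
  choose p hp1 hp2 using hp
  have hTp : ∀ j x, x ≠ o → x ≠ i → ψ (τ j x) (p j) = ψ (τ j z2) (p j) := by
    intro j x h1 h2
    by_cases x2 : x = z2
    · rw [x2]
    by_cases x3 : x = z3
    · rw [x3, ← hp1]
    exact clique (hT3 j z2 ho2 hi2) (hT3 j z3 ho3 hi3) (hT3 j x h1 h2) (hp1 j) (hp2 j)
      (hTne j z2 z3 ho2 hi2 ho3 hi3 h23) (hTE j z2 x ho2 hi2 h1 h2 (Ne.symm x2))
      (hTE j z3 x ho3 hi3 h1 h2 (Ne.symm x3))
  let q : Fin k → Pt k m := fun j => ψ (τ j z2) (p j)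
  have hpq : ∀ j, q j ≠ p j := hp2
  have hTq : ∀ j x, x ≠ o → x ≠ i → ψ (τ j x) (q j) ≠ q j ∧ ψ (τ j x) (q j) ≠ p j := by
    intro j x h1 h2
    have h3 := hTp j x h1 h2
    have h4 : ψ (τ j x) (p j) ≠ p j := by rw [h3]; exact hp2 j
    constructor
    · intro h
      apply hpq j
      apply (ψ (τ j x)).injective
      rw [h, h3]
    · intro h
      apply (hT3 j x h1 h2).ne2 h4
      rw [h3]; exact h
  let f : Pt k m → Pt k m := fun y =>
    if y.2 = o then p y.1 else if y.2 = i then q y.1 else ψ (τ y.1 y.2) (q y.1)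
  have fo : ∀ j, f (j, o) = p j := fun j => by simp [f]
  have fi : ∀ j, f (j, i) = q j := fun j => by simp [f, hoi.symm]
  have fx : ∀ j x, x ≠ o → x ≠ i → f (j, x) = ψ (τ j x) (q j) := fun j x h1 h2 => by
    simp [f, h1, h2]
  have hcyc : ∀ j x, x ≠ o → x ≠ i → ψ (τ j x) = cyc (f (j, o)) (f (j, i)) (f (j, x)) := by
    intro j x h1 h2
    have h3 := hTp j x h1 h2
    have h4 : ψ (τ j x) (p j) ≠ p j := by rw [h3]; exact hp2 j
    have h5 := (hT3 j x h1 h2).eq_cyc h4
    rw [h3] at h5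
    rw [fo, fi, fx j x h1 h2]
    exact h5
  -- each f y is moved by some ψ (τ ..)
  have hmov : ∀ j x, ∃ x', x' ≠ o ∧ x' ≠ i ∧ ψ (τ j x') (f (j, x)) ≠ f (j, x) := by
    intro j x
    by_cases h1 : x = o
    · refine ⟨z2, ho2, hi2, ?_⟩
      rw [h1, fo]; exact hp2 j
    by_cases h2 : x = i
    · refine ⟨z2, ho2, hi2, ?_⟩
      rw [h2, fi]; exact (hTq j z2 ho2 hi2).1
    · refine ⟨x, h1, h2, ?_⟩
      rw [fx j x h1 h2]
      intro h
      exact (hTq j x h1 h2).1 ((ψ (τ j x)).injective h)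
  have hinj : Function.Injective f := by
    rintro ⟨j, x⟩ ⟨j', x'⟩ h
    by_cases hj : j = j'
    · subst hj
      by_cases x1 : x = o
      · subst x1
        by_cases y1 : x' = o
        · rw [y1]
        by_cases y2 : x' = i
        · subst y2; rw [fo, fi] at h; exact absurd h.symm (hpq j)
        · rw [fo, fx j x' y1 y2] at h; exact absurd h.symm (hTq j x' y1 y2).2
      by_cases x2 : x = i
      · subst x2
        by_cases y1 : x' = o
        · subst y1; rw [fo, fi] at h; exact absurd h (hpq j)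
        by_cases y2 : x' = i
        · rw [y2]
        · rw [fi, fx j x' y1 y2] at h; exact absurd h.symm (hTq j x' y1 y2).1
      by_cases y1 : x' = o
      · subst y1; rw [fo, fx j x x1 x2] at h; exact absurd h (hTq j x x1 x2).2
      by_cases y2 : x' = i
      · subst y2; rw [fi, fx j x x1 x2] at h; exact absurd h (hTq j x x1 x2).1
      by_contra hne
      have hxx : x ≠ x' := fun h => hne (by rw [h])
      apply hTne j x x' x1 x2 y1 y2 hxx
      rw [hcyc j x x1 x2, hcyc j x' y1 y2, h]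
    · exfalso
      obtain ⟨y, y1, y2, hy⟩ := hmov j x
      obtain ⟨y', y1', y2', hy'⟩ := hmov j' x'
      rw [← h] at hy'
      have hs := hT3 j y y1 y2
      have ht := hT3 j' y' y1' y2'
      -- they commute
      have hd : Perm.Disjoint (φ (τ j y)) (φ (τ j' y')) := by
        intro w
        rw [hτ j y y1 y2, hτ j' y' y1' y2']
        by_cases hw : w.1 = j
        · right
          apply cyc_o
          · rintro rfl; exact hj hw.symm
          · rintro rfl; exact hj hw.symm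
          · rintro rfl; exact hj hw.symm
        · left
          apply cyc_o
          · rintro rfl; exact hw rfl
          · rintro rfl; exact hw rfl
          · rintro rfl; exact hw rfl
      have hc : ∀ w, ψ (τ j y) (ψ (τ j' y') w) = ψ (τ j' y') (ψ (τ j y) w) := by
        intro w
        have hcm : ψ (τ j y * τ j' y') = ψ (τ j' y' * τ j y) :=
          (keq _ _).mp (by rw [map_mul, map_mul, hd.commute.eq])
        rw [← Perm.mul_apply, ← Perm.mul_apply, ← map_mul, ← map_mul, hcm]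
      have hφo : φ (τ j' y') (j, o) = (j, o) := by
        rw [hτ j' y' y1' y2']
        apply cyc_o
        · intro h; exact hj (Prod.ext_iff.mp h).1
        · intro h; exact hj (Prod.ext_iff.mp h).1
        · intro h; exact hj (Prod.ext_iff.mp h).1
      have hφo' : φ (τ j y) (j, o) = (j, i) := by
        rw [hτ j y y1 y2, cyc_a (pne hoi) (pne y1.symm)]
      generalize hw : f (j, x) = w at *
      have htw : ψ (τ j y) (ψ (τ j' y') w) ≠ ψ (τ j' y') w := by
        rw [hc]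
        intro h
        exact hy ((ψ (τ j' y')).injective h)
      rcases hs.2.2 w _ hy htw with h6 | h6 | h6
      · exact hy' h6
      · -- t = s
        have h7 : ψ (τ j y) = ψ (τ j' y') := by
          rw [hs.eq_cyc hy, ht.eq_cyc hy', h6, ← hc, h6]
        rw [← keq] at h7
        rw [h7, hφo] at hφo'
        exact pne hoi hφo'
      · -- t = s⁻¹
        have h8 : ψ (τ j' y') (ψ (τ j' y') w) = ψ (τ j y) w := by
          rw [h6, ← hc, ← hc, h6, hs.1]
        have h7 : ψ (τ j y) * ψ (τ j' y') = 1 := by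
          rw [hs.eq_cyc hy, ht.eq_cyc hy', h8, h6]
          exact cyc_mul_inv hy.symm (hs.ne2 hy).symm (fun h => hy ((ψ (τ j y)).injective h.symm))
        rw [← map_mul, ← hk, map_mul] at h7
        have h9 := congrArg (fun f : Perm (Pt k m) => f (j, o)) h7
        simp only [Perm.mul_apply, Perm.one_apply] at h9
        rw [hφo, hφo'] at h9
        exact pne hoi h9.symm
  let ρ : Perm (Pt k m) := Equiv.ofBijective f (Finite.injective_iff_bijective.mp hinj)
  have hρ : ∀ y, ρ y = f y := fun y => rfl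
  let K : Subgroup H :=
    { carrier := {h | ψ h = ρ * φ h * ρ⁻¹}
      one_mem' := by simp
      mul_mem' := by
        intro a b ha hb
        simp only [Set.mem_ofPred_eq] at *
        rw [map_mul, map_mul, ha, hb]; group
      inv_mem' := by
        intro a ha
        simp only [Set.mem_ofPred_eq] at *
        rw [map_inv, map_inv, ha]; group }
  have hKmem : ∀ h, h ∈ K ↔ ψ h = ρ * φ h * ρ⁻¹ := fun h => Iff.rfl
  refine ⟨ρ, fun h => ?_⟩
  have hle : Subgroup.closure {t | ∃ a b c : Pt k m, a.1 = b.1 ∧ a.1 = c.1 ∧ a ≠ b ∧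
      a ≠ c ∧ b ≠ c ∧ t = cyc a b c} ≤ K.map φ := by
    rw [Subgroup.closure_le]
    rintro _ ⟨a, b, c, e1, e2, n1, n2, n3, rfl⟩
    refine gen (K.map φ) {y | y.1 = a.1} (o := (a.1, o)) (i := (a.1, i)) rfl rfl (pne hoi) ?_
      a rfl b e1.symm n1 c e2.symm n2.symm n3.symm
    rintro ⟨j, x⟩ hx h1 h2
    simp only [Set.mem_ofPred_eq] at hx
    subst hx
    have h1' : x ≠ o := fun h => h1 (by rw [h])
    have h2' : x ≠ i := fun h => h2 (by rw [h])
    refine ⟨τ a.1 x, ?_, hτ _ _ h1' h2'⟩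
    show ψ _ = _
    rw [hτ _ _ h1' h2', conj_cyc, hcyc _ _ h1' h2', hρ, hρ, hρ]
  obtain ⟨h', hh', he⟩ := hle (hgen h)
  rw [← he, ← (keq _ _).mp he]
  exact hh'

end

end Pool.Agent.H61.IG.Alt
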