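import Pool.Agent.H61.CM.Crit
import Pool.Agent.H61.CM.Extract
import Pool.Agent.H61.CM.Transfer
import Pool.Agent.H61.CM.Odd

/-!
# Alternating groups: automorphisms and the stabilisers of subsets
-/

namespace Pool.Agent.H61.CM

open Equiv Pool.Agent.H61.IG
open scoped Pointwise

theorem perm_inv_apply {α : Type*} (s : Perm α) (x : α) : s⁻¹ (s x) = x := s.symm_apply_apply x

theorem perm_apply_inv {α : Type*} (s : Perm α) (x : α) : s (s⁻¹ x) = x := s.apply_symm_apply x

/-- the number of members of the class is the index of a member -/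
theorem card_cls {T : Type*} [Group T] [IsSimpleGroup T] (hT : ∃ a b : T, a * b ≠ b * a)
    {C : Set (Subgroup T)} (hC : Cls T C) {R : Subgroup T} (hR : R ∈ C) :
    Nat.card C = R.index := by
  let N : Subgroup T :=
    { carrier := {t | im (MulAut.conj t) R = R}
      one_mem' := im_id (fun t => by simp) R
      mul_mem' := by
        intro s t hs ht
        change im (MulAut.conj (s * t)) R = R
        rw [im_comp (φ := MulAut.conj s) (ψ := MulAut.conj t) (fun x => by simp [mul_assoc]),
          show im (MulAut.conj t) R = R from ht, show im (MulAut.conj s) R = R from hs]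
      inv_mem' := by
        intro s hs
        change im (MulAut.conj s⁻¹) R = R
        apply im_inj (φ := MulAut.conj s)
        rw [show im (MulAut.conj s) R = R from hs,
          ← im_comp (φ := MulAut.conj s) (ψ := MulAut.conj s⁻¹) (χ := 1)
            (fun x => by simp only [MulAut.conj_apply, MulAut.one_apply]; group)]
        exact im_id (fun t => rfl) R }
  have hN : ∀ t, t ∈ N ↔ im (MulAut.conj t) R = R := fun _ => Iff.rfl
  have hRN : R ≤ N := fun t ht => im_conj_self ht
  have hNR : N = R := by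
    rcases hRN.eq_or_lt with h | h
    · exact h.symm
    · exfalso
      have h1 := (hC.coatom R hR).2 N h
      obtain ⟨t, ht⟩ := coatom_not_normal hT (hC.coatom R hR)
      apply ht
      rw [← hN, h1]; trivial
  have key : ∀ s t : T, im (MulAut.conj s) R = im (MulAut.conj t) R ↔ s⁻¹ * t ∈ R := by
    intro s t
    have h1 : im (MulAut.conj t) R = im (MulAut.conj s) (im (MulAut.conj (s⁻¹ * t)) R) := by
      rw [← im_comp]
      intro x
      simp only [MulAut.conj_apply]; group
    rw [h1]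
    conv_rhs => rw [← hNR, hN]
    constructor
    · intro h
      exact (im_inj h).symm
    · intro h
      rw [h]
  rw [Subgroup.index]
  symm
  apply Nat.card_congr
  refine Equiv.ofBijective (fun q : T ⧸ R => Quotient.liftOn' q
    (fun t => (⟨im (MulAut.conj t) R, hC.aut R hR _⟩ : C)) ?_) ⟨?_, ?_⟩
  · intro s t hst
    apply Subtype.ext
    exact (key s t).2 (QuotientGroup.leftRel_apply.1 hst)
  · intro p q
    induction p using Quotient.inductionOn'
    induction q using Quotient.inductionOn'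
    rename_i s t
    intro h
    apply Quotient.sound'
    rw [QuotientGroup.leftRel_apply]
    exact (key s t).1 (congrArg Subtype.val h)
  · rintro ⟨R', hR'⟩
    obtain ⟨t, ht⟩ := hC.conj R hR R' hR'
    exact ⟨Quotient.mk'' t, Subtype.ext ht⟩

section alt

variable {m : ℕ}

/-- in degree five the permutations of order three are the three-cycles -/
theorem is3_five {u : Perm (Alt.Pt 1 5)} (h3 : u ^ 3 = 1) (h1 : u ≠ 1) : Alt.Is3 u := by
  classical
  have hu3 : ∀ a, u (u (u a)) = a := by
    intro a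
    have := congrArg (fun f : Perm (Alt.Pt 1 5) => f a) h3
    simpa [pow_succ] using this
  obtain ⟨p, hp⟩ : ∃ p, u p ≠ p := by
    by_contra hcon
    push Not at hcon
    exact h1 (Equiv.ext hcon)
  refine ⟨hu3, ⟨p, hp⟩, ?_⟩
  intro a b ha hb
  by_contra hcon
  push Not at hcon
  obtain ⟨n1, n2, n3⟩ := hcon
  have hpow : ∀ (i : ℕ) (S : Finset (Alt.Pt 1 5)), (∀ x ∈ S, u x ∈ S) → ∀ x ∈ S, (u ^ i) x ∈ S := by
    intro i S hS
    induction i with
    | zero => intro x hx; simpa using hx
    | succ i ih => intro x hx; rw [pow_succ', Perm.mul_apply]; exact hS _ (ih x hx)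
  let S : Finset (Alt.Pt 1 5) := {a, u a, u (u a)}
  have hS : ∀ x ∈ S, u x ∈ S := by
    intro x hx
    simp only [S, Finset.mem_insert, Finset.mem_singleton] at hx ⊢
    rcases hx with rfl | rfl | rfl
    · tauto
    · tauto
    · left; exact hu3 a
  have hSc : ∀ x ∈ Sᶜ, u x ∈ Sᶜ := by
    intro x hx
    rw [Finset.mem_compl] at hx ⊢
    intro h
    apply hx
    have := hS _ (hS _ h)
    rwa [hu3] at this
  have c1 := le_card_of_moved Nat.prime_three u h3 ha S
    (fun i => hpow i S hS a (by simp [S]))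
  have c2 := le_card_of_moved Nat.prime_three u h3 hb Sᶜ
    (fun i => hpow i Sᶜ hSc b (by
      simp only [S, Finset.mem_compl, Finset.mem_insert, Finset.mem_singleton]
      tauto))
  rw [Finset.card_compl] at c2
  have c3 : Fintype.card (Alt.Pt 1 5) = 5 := by simp [Alt.Pt]
  omega

theorem alt_aut (h5 : 5 ≤ m) (h6 : m ≠ 6) (φ : MulAut (alternatingGroup (Fin m))) :
    ∃ s : Perm (Fin m), ∀ t, (φ t : Perm (Fin m)) = s * t * s⁻¹ := by
  let c : alternatingGroup (Fin m) →* (Fin 1 → alternatingGroup (Fin m)) :=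
    MonoidHom.pi fun _ => MonoidHom.id _
  let f : alternatingGroup (Fin m) →* Perm (Alt.Pt 1 m) := (Alt.pointHom 1 m).comp c
  have hf : ∀ t x, f t x = (x.1, (t : Perm (Fin m)) x.2) := fun _ _ => rfl
  have hfull : Alt.Full f := by
    refine ⟨fun h x => rfl, fun a b d h1 h2 hab _ hbc => ?_⟩
    obtain ⟨σ, hσ⟩ := Alt.pointHom_cyc h1 h2 hab hbc
    refine ⟨σ 0, ?_⟩
    rw [← hσ]
    show Alt.pointHom 1 m (c (σ 0)) = _
    congr 1
    funext i
    rw [Subsingleton.elim i 0]
    rfl
  have hfull' : Alt.Full (f.comp φ.toMonoidHom) := by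
    refine ⟨fun h x => rfl, fun a b d h1 h2 h3 h4 h5 => ?_⟩
    obtain ⟨t, ht⟩ := hfull.2 a b d h1 h2 h3 h4 h5
    refine ⟨φ.symm t, ?_⟩
    rw [← ht]
    show f (φ (φ.symm t)) = _
    rw [MulEquiv.apply_symm_apply]
  have hinj : ∀ t, f t = 1 ↔ t = 1 := by
    intro t
    constructor
    · intro h
      have h1 : c t = 1 := by
        apply Alt.pointHom_inj
        rw [map_one]; exact h
      exact congrFun h1 0
    · rintro rfl
      exact map_one f
  have hk : ∀ h, f h = 1 ↔ (f.comp φ.toMonoidHom) h = 1 := by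
    intro h
    rw [hinj, MonoidHom.comp_apply, hinj]
    exact (MulEquiv.map_eq_one_iff φ).symm
  obtain ⟨ρ, hρ⟩ : ∃ ρ : Perm (Alt.Pt 1 m), ∀ h, (f.comp φ.toMonoidHom) h = ρ * f h * ρ⁻¹ := by
    by_cases hm : 7 ≤ m
    · exact Alt.transfer hm hfull hfull' (fun h => Alt.pointHom_gen _) hk
    · have hm5 : m = 5 := by omega
      subst hm5
      apply Alt.transfer' (by norm_num) hfull hfull' _ (fun h => Alt.pointHom_gen _) hk
      intro h h3
      apply is3_five
      · rw [← map_pow, ← hk, map_pow]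
        refine Equiv.ext fun x => ?_
        simp [pow_succ, h3.1]
      · intro h1
        rw [← hk] at h1
        obtain ⟨a, ha⟩ := h3.2.1
        rw [h1] at ha
        exact ha rfl
  let e : Fin m ≃ Alt.Pt 1 m :=
    { toFun := fun x => (0, x)
      invFun := fun x => x.2
      left_inv := fun x => rfl
      right_inv := fun x => by
        obtain ⟨i, x⟩ := x
        rw [Subsingleton.elim i 0] }
  refine ⟨(e.trans ρ).trans e.symm, fun t => ?_⟩
  ext x
  have h1 := congrArg (fun p : Perm (Alt.Pt 1 m) => e.symm (p (e x))) (hρ t)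
  simp only [Perm.mul_apply] at h1
  have h2 : e.symm ((f.comp φ.toMonoidHom) t (e x)) = (φ t : Perm (Fin m)) x := rfl
  rw [h2] at h1
  rw [h1]
  have h3 : ∀ y : Alt.Pt 1 m, f t y = e ((t : Perm (Fin m)) (e.symm y)) := by
    intro y
    rw [hf]
    exact Prod.ext (Subsingleton.elim _ _) rfl
  rw [h3]
  rfl

/-- the stabiliser of a subset -/
def Stab (S : Finset (Fin m)) : Subgroup (alternatingGroup (Fin m)) :=
  MulAction.stabilizer (alternatingGroup (Fin m)) (S : Set (Fin m))

theorem mem_Stab {S : Finset (Fin m)} {t : alternatingGroup (Fin m)} :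
    t ∈ Stab S ↔ ∀ x, x ∈ S ↔ (t : Perm (Fin m)) x ∈ S := by
  rw [Stab, MulAction.mem_stabilizer_iff]
  constructor
  · intro h x
    have h1 : t • x ∈ t • (S : Set (Fin m)) ↔ x ∈ (S : Set (Fin m)) :=
      Set.smul_mem_smul_set_iff
    rw [h] at h1
    exact h1.symm
  · intro h
    ext y
    rw [Set.mem_smul_set_iff_inv_smul_mem]
    have h1 := h (t⁻¹ • y)
    have h2 : (t : Perm (Fin m)) (t⁻¹ • y) = y := by
      show t • t⁻¹ • y = y
      rw [smul_inv_smul]
    rw [h2] at h1
    exact h1

/-- the class of stabilisers of `l`-subsets -/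
def CA (m l : ℕ) : Set (Subgroup (alternatingGroup (Fin m))) :=
  {R | ∃ S : Finset (Fin m), S.card = l ∧ R = Stab S}

theorem im_Stab {φ : MulAut (alternatingGroup (Fin m))} {s : Perm (Fin m)}
    (h : ∀ t, (φ t : Perm (Fin m)) = s * t * s⁻¹) {S S' : Finset (Fin m)}
    (hS : ∀ x, x ∈ S ↔ s x ∈ S') : im φ (Stab S) = Stab S' := by
  have key : ∀ t, φ t ∈ Stab S' ↔ t ∈ Stab S := by
    intro t
    rw [mem_Stab, mem_Stab]
    constructor
    · intro h1 x
      have h2 := h1 (s x)
      rw [h] at h2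
      simp only [Perm.mul_apply, perm_inv_apply] at h2
      rw [hS, hS]; exact h2
    · intro h1 x
      have h2 := h1 (s⁻¹ x)
      rw [hS, hS] at h2
      rw [h]
      simp only [Perm.mul_apply]
      rw [perm_apply_inv] at h2
      exact h2
  ext t
  rw [mem_im, ← key, MulEquiv.apply_symm_apply]

theorem cls_CA (hm : 5 ≤ m) (h6 : m ≠ 6) {l : ℕ} (h2 : 2 ≤ l) (hl : l < m) (hne : 2 * l ≠ m) :
    Cls (alternatingGroup (Fin m)) (CA m l) where
  ne := by
    obtain ⟨S, -, hS⟩ := Finset.exists_subset_card_eq (s := (Finset.univ : Finset (Fin m)))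
      (n := l) (by rw [Finset.card_univ, Fintype.card_fin]; exact hl.le)
    exact ⟨_, S, hS, rfl⟩
  coatom := by
    rintro _ ⟨S, hS, rfl⟩
    apply alternatingGroup.isCoatom_stabilizer
    · rw [Finset.coe_nonempty, ← Finset.card_pos]; omega
    · rw [← Finset.coe_compl, Finset.coe_nonempty, ← Finset.card_pos, Finset.card_compl,
        Fintype.card_fin]
      omega
    · rw [Set.ncard_coe_finset, hS, Nat.card_eq_fintype_card, Fintype.card_fin]
      exact Ne.symm hne
  conj := by
    rintro _ ⟨S, hS, rfl⟩ _ ⟨S', hS', rfl⟩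
    obtain ⟨σ, hσ⟩ := Alt.alt_homog S S' (by rw [hS, hS']) (by omega)
    exact ⟨σ, im_Stab (s := σ) (fun t => rfl) hσ⟩
  aut := by
    rintro _ ⟨S, hS, rfl⟩ φ
    obtain ⟨s, hs⟩ := alt_aut hm h6 φ
    refine ⟨S.map s.toEmbedding, by rw [Finset.card_map, hS], ?_⟩
    apply im_Stab hs
    intro x
    simp

theorem card_CA (hm : 5 ≤ m) (h6 : m ≠ 6) {l : ℕ} (h2 : 2 ≤ l) (hl : l < m) (hne : 2 * l ≠ m) :
    Nat.card (CA m l) = m.choose l := by
  have h5 : 5 ≤ Nat.card (Fin m) := by rw [Nat.card_eq_fintype_card, Fintype.card_fin]; omega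
  have := alternatingGroup.isSimpleGroup h5
  have hT : ∃ a b : alternatingGroup (Fin m), a * b ≠ b * a := by
    have := Alt.alt_noncomm (n := m) (by omega)
    push Not at this
    exact this
  have hC := cls_CA hm h6 h2 hl hne
  obtain ⟨R, hR⟩ := hC.ne
  obtain ⟨S, hS, rfl⟩ := id hR
  rw [card_cls hT hC hR, Stab, MulAction.index_stabilizer]
  have horb : MulAction.orbit (alternatingGroup (Fin m)) (S : Set (Fin m)) =
      (fun S' : Finset (Fin m) => (S' : Set (Fin m))) ''
        (Finset.powersetCard l Finset.univ : Finset (Finset (Fin m))) := by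
    ext A
    constructor
    · rintro ⟨t, rfl⟩
      refine ⟨S.map (t : Perm (Fin m)).toEmbedding, ?_, ?_⟩
      · simp [Finset.mem_powersetCard, hS]
      · ext x
        simp only [Finset.coe_map, Equiv.coe_toEmbedding]
        rfl
    · rintro ⟨S', hS', rfl⟩
      rw [Finset.mem_coe, Finset.mem_powersetCard] at hS'
      obtain ⟨σ, hσ⟩ := Alt.alt_homog S S' (by rw [hS, hS'.2]) (by omega)
      refine ⟨σ, ?_⟩
      ext x
      show x ∈ σ • (S : Set (Fin m)) ↔ x ∈ S'
      rw [Set.mem_smul_set_iff_inv_smul_mem, Finset.mem_coe, hσ]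
      have h2 : (σ : Perm (Fin m)) (σ⁻¹ • x) = x := by
        show σ • σ⁻¹ • x = x
        rw [smul_inv_smul]
      rw [h2]
  rw [horb, Set.ncard_image_of_injective _ Finset.coe_injective, Set.ncard_coe_finset,
    Finset.card_powersetCard, Finset.card_univ, Fintype.card_fin]

theorem perm_eq_one (hm : 4 ≤ m) {u : Perm (Fin m)}
    (h : ∀ t : alternatingGroup (Fin m), u * t * u⁻¹ = t) : u = 1 := by
  by_contra hne
  obtain ⟨x, hx⟩ : ∃ x, u x ≠ x := by
    by_contra hcon
    push Not at hcon
    exact hne (Equiv.ext hcon)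
  have hex : ∀ S : Finset (Fin m), S.card ≤ 3 → ∃ y, y ∉ S := by
    intro S hS
    by_contra hcon
    push Not at hcon
    have : S = Finset.univ := by ext y; simp [hcon y]
    rw [this, Finset.card_univ, Fintype.card_fin] at hS
    omega
  obtain ⟨y, hy⟩ := hex {x, u x} (Finset.card_le_two.trans (by norm_num))
  obtain ⟨z, hz⟩ := hex {x, u x, y} Finset.card_le_three
  simp only [Finset.mem_insert, Finset.mem_singleton, not_or] at hy hz
  have h1 := h ⟨Alt.cyc x y z, Alt.cyc_even (Ne.symm hy.1) (Ne.symm hz.2.2)⟩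
  have h2 := congrArg (fun p : Perm (Fin m) => p (u x)) h1
  simp only [Perm.mul_apply, perm_inv_apply] at h2
  rw [Alt.cyc_a (Ne.symm hy.1) (Ne.symm hz.1), Alt.cyc_o hx (Ne.symm hy.2) (Ne.symm hz.2.1)] at h2
  exact hy.1 (u.injective h2)

theorem fix_CA (hm : 5 ≤ m) (h6 : m ≠ 6) {l r : ℕ} (hr : r.Prime) (hl : l ≤ m) (hd : r ∣ l)
    (φ : MulAut (alternatingGroup (Fin m))) (hφ : φ ^ r = 1) : ∃ R ∈ CA m l, im φ R = R := by
  obtain ⟨s, hs⟩ := alt_aut hm h6 φ
  have hpow : ∀ (n : ℕ) t, ((φ ^ n) t : Perm (Fin m)) = s ^ n * t * (s ^ n)⁻¹ := by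
    intro n
    induction n with
    | zero => intro t; simp
    | succ n ih =>
      intro t
      rw [pow_succ', MulAut.mul_apply, hs, ih, pow_succ']
      group
  have hsr : s ^ r = 1 := by
    apply perm_eq_one (by omega)
    intro t
    rw [← hpow, hφ]
    rfl
  have hper : ∀ x, Function.IsPeriodicPt s r x := by
    intro x
    have : (s^[r]) x = (s ^ r) x := by rw [Perm.iterate_eq_pow]
    rw [Function.IsPeriodicPt, Function.IsFixedPt, this, hsr]; rfl
  obtain ⟨S, -, hSc, hSi⟩ := Alt.inv_subset s hr.pos hsr hr l Finset.univ (by simp)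
    (by
      intro x _
      obtain ⟨b, -, hb⟩ := (Nat.dvd_prime_pow hr (m := 1)
        (i := Function.minimalPeriod s x)).1 (by
          rw [pow_one]; exact (hper x).minimalPeriod_dvd)
      exact ⟨b, hb⟩)
    (fun x _ => ((hper x).minimalPeriod_dvd).trans hd)
    (by rw [Finset.card_univ, Fintype.card_fin]; exact hl)
  exact ⟨Stab S, ⟨S, hSc, rfl⟩, im_Stab hs fun x => ⟨hSi x, Alt.bwd s hr.pos hsr hSi⟩⟩

end alt

end Pool.Agent.H61.CM
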