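import Pool.Agent.H61.CM.Wreath

/-!
# The stabiliser of a family of maximal subgroups is a maximal subgroup
-/

namespace Pool.Agent.H61.CM

open Equiv

namespace Wr

variable {G T ι : Type*} [Group G] [Group T] [DecidableEq ι] (W : Wr G T ι)
  {C : Set (Subgroup T)}

/-- a family of members of the class `C` -/
def Fam (C : Set (Subgroup T)) (x : ι → Subgroup T) : Prop := ∀ i, x i ∈ C

omit [DecidableEq ι] in
theorem act_fam (hC : Cls T C) {x : ι → Subgroup T} (hx : Fam C x) (g : G) :
    Fam C (W.act g x) := by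
  intro j
  obtain ⟨i, rfl⟩ := W.κ_surj g j
  rw [W.act_apply]
  exact hC.aut _ (hx i) _

/-- `M` is transitive on families -/
theorem M_trans [Nontrivial T] (hC : Cls T C) {x y : ι → Subgroup T} (hx : Fam C x)
    (hy : Fam C y) : ∃ m ∈ W.M, W.act m x = y := by
  have h : ∀ i, ∃ t : T, im (MulAut.conj t) (x i) = y i := fun i => hC.conj _ (hx i) _ (hy i)
  choose t ht using h
  obtain ⟨m, hm⟩ := W.surj t
  refine ⟨m, m.2, ?_⟩
  funext i
  rw [W.act_M m.2, ← ht i]
  apply im_congr
  intro s
  rw [show (⟨(m : G), m.2⟩ : W.M) = m from rfl, hm]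

omit [DecidableEq ι] in
theorem ker_le [Nontrivial T] [DecidableEq ι] {m : W.M} (h : W.θ m = 1)
    (x : ι → Subgroup T) : (m : G) ∈ W.H x := by
  rw [W.mem_H]
  funext i
  rw [W.act_M m.2, show (⟨(m : G), m.2⟩ : W.M) = m from rfl, h]
  apply im_id
  intro t
  simp

theorem single_mem_H [Nontrivial T] {m : W.M} {i : ι} {t : T} (h : W.θ m = Pi.mulSingle i t)
    {x : ι → Subgroup T} (ht : t ∈ x i) : (m : G) ∈ W.H x := by
  rw [W.mem_H]
  funext j
  rw [W.act_M m.2, show (⟨(m : G), m.2⟩ : W.M) = m from rfl, h]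
  by_cases hj : j = i
  · subst hj
    rw [Pi.mulSingle_eq_same]
    exact im_conj_self ht
  · rw [Pi.mulSingle_eq_of_ne hj]
    apply im_id
    intro t
    simp

theorem coatom_H [IsSimpleGroup T] (hT : ∃ a b : T, a * b ≠ b * a) [Finite ι] [Nonempty ι]
    (hC : Cls T C) {x : ι → Subgroup T} (hx : Fam C x) : IsCoatom (W.H x) := by
  have hM : W.M.Normal := W.nor
  constructor
  · intro htop
    obtain ⟨i⟩ : Nonempty ι := inferInstance
    obtain ⟨t, ht⟩ := coatom_not_normal hT (hC.coatom _ (hx i))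
    obtain ⟨m, hm⟩ := W.surj (Pi.mulSingle i t)
    have h1 : (m : G) ∈ W.H x := by rw [htop]; trivial
    rw [W.mem_H] at h1
    have h2 := congrFun h1 i
    rw [W.act_M m.2, show (⟨(m : G), m.2⟩ : W.M) = m from rfl, hm, Pi.mulSingle_eq_same] at h2
    exact ht h2
  · intro L hL
    have hle : W.H x ≤ L := hL.le
    -- every element of `G` is a product
    have hfac : ∀ g : G, ∃ m ∈ W.M, m * g ∈ W.H x := by
      intro g
      obtain ⟨m, hm, hmx⟩ := W.M_trans hC (W.act_fam hC hx g) hx
      exact ⟨m, hm, by rw [W.mem_H, W.act_mul, hmx]⟩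
    obtain ⟨g, hgL, hgH⟩ := SetLike.exists_of_lt hL
    obtain ⟨m, hm, hmg⟩ := hfac g
    have hmL : m ∈ L := by
      have := L.mul_mem (hle hmg) (L.inv_mem hgL)
      rwa [mul_inv_cancel_right] at this
    have hmH : m ∉ W.H x := by
      intro h
      apply hgH
      have := (W.H x).mul_mem ((W.H x).inv_mem h) hmg
      rwa [inv_mul_cancel_left] at this
    obtain ⟨j, hj⟩ : ∃ j, W.θ ⟨m, hm⟩ j ∉ x j := by
      by_contra hcon
      push Not at hcon
      apply hmH
      rw [W.mem_H]
      funext i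
      rw [W.act_M hm]
      exact im_conj_self (hcon i)
    let D : Subgroup (ι → T) := (L.comap W.M.subtype).map W.θ
    have hD : ∀ y : W.M, (y : G) ∈ L → W.θ y ∈ D := fun y hy => ⟨y, hy, rfl⟩
    have hDs : ∀ t ∈ x j, Pi.mulSingle j t ∈ D := by
      intro t ht
      obtain ⟨y, hy⟩ := W.surj (Pi.mulSingle j t)
      rw [← hy]
      exact hD y (hle (W.single_mem_H hy ht))
    have hP : D.map (Pi.evalMonoidHom (fun _ : ι => T) j) = ⊤ := by
      apply (hC.coatom _ (hx j)).2
      refine lt_of_le_of_ne ?_ ?_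
      · intro t ht
        exact ⟨_, hDs t ht, by simp⟩
      · intro h
        apply hj
        rw [h]
        exact ⟨_, hD ⟨m, hm⟩ hmL, rfl⟩
    let B : Subgroup T := D.comap (MonoidHom.mulSingle (fun _ : ι => T) j)
    have hBm : ∀ t, t ∈ B ↔ Pi.mulSingle j t ∈ D := fun _ => Iff.rfl
    have hBn : B.Normal := by
      refine ⟨fun t ht s => ?_⟩
      have hs : s ∈ D.map (Pi.evalMonoidHom (fun _ : ι => T) j) := by rw [hP]; trivial
      obtain ⟨d, hd, hds⟩ := hs
      have hds' : d j = s := hds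
      rw [hBm] at ht ⊢
      have h1 := D.mul_mem (D.mul_mem hd ht) (D.inv_mem hd)
      have h2 : d * Pi.mulSingle j t * d⁻¹ = Pi.mulSingle j (s * t * s⁻¹) := by
        funext i
        by_cases hi : i = j
        · subst hi
          simp [hds']
        · simp [Pi.mulSingle_eq_of_ne hi]
      rwa [h2] at h1
    have hB : B = ⊤ := by
      rcases hBn.eq_bot_or_eq_top with h | h
      · exfalso
        apply coatom_ne_bot hT (hC.coatom _ (hx j))
        rw [eq_bot_iff, ← h]
        exact hDs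
      · exact h
    have hj' : ∀ t, Pi.mulSingle j t ∈ D := by
      intro t
      rw [← hBm, hB]; trivial
    have hin : ∀ y : W.M, W.θ y ∈ D → (y : G) ∈ L := by
      rintro y ⟨d, hd, hdy⟩
      have h1 : W.θ (d⁻¹ * y) = 1 := by rw [map_mul, map_inv, hdy, inv_mul_cancel]
      have h2 := hle (W.ker_le h1 x)
      have h3 := L.mul_mem hd h2
      have h4 : (W.M.subtype d) * ((d⁻¹ * y : W.M) : G) = y := by
        show (d : G) * ((d : G)⁻¹ * (y : G)) = y
        group
      rwa [h4] at h3
    have hall : ∀ i t, Pi.mulSingle i t ∈ D := by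
      intro i t
      obtain ⟨g₁, hg₁⟩ := W.trans j i
      obtain ⟨m₁, hm₁, hmg₁⟩ := hfac g₁
      have hκ : W.κ (m₁ * g₁) j = i := by
        rw [map_mul, W.κ_M hm₁, one_mul, hg₁]
      obtain ⟨y, hy⟩ := W.surj (Pi.mulSingle i t)
      rw [← hy]
      apply hD
      let z : W.M := W.cn (m₁ * g₁)⁻¹ y
      have hz : (z : G) = (m₁ * g₁)⁻¹ * y * (m₁ * g₁) := by
        show (m₁ * g₁)⁻¹ * (y : G) * (m₁ * g₁)⁻¹⁻¹ = _
        rw [inv_inv]
      have hyz : (y : G) = (m₁ * g₁) * z * (m₁ * g₁)⁻¹ := by rw [hz]; group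
      have hθz : W.θ z = Pi.mulSingle j (W.θ z j) := by
        funext l
        by_cases hl : l = j
        · subst hl; simp
        · rw [Pi.mulSingle_eq_of_ne hl]
          have h1 := W.compat (m₁ * g₁) l z y hyz
          rw [hy] at h1
          have h2 : W.κ (m₁ * g₁) l ≠ i := by
            intro h
            rw [← hκ] at h
            exact hl ((W.κ (m₁ * g₁)).injective h)
          rw [Pi.mulSingle_eq_of_ne h2] at h1
          apply (W.a (m₁ * g₁) l).injective
          rw [← h1, map_one]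
      have hzL : (z : G) ∈ L := by
        apply hin
        rw [hθz]
        exact hj' _
      rw [hyz]
      exact L.mul_mem (L.mul_mem (hle hmg₁) hzL) (L.inv_mem (hle hmg₁))
    have hML : W.M ≤ L := by
      intro y hy
      apply hin ⟨y, hy⟩
      cases nonempty_fintype ι
      exact Subgroup.pi_mem_of_mulSingle_mem _ fun i => hall i _
    rw [eq_top_iff]
    intro g _
    obtain ⟨m, hm, hmg⟩ := hfac g
    have := L.mul_mem (L.inv_mem (hML hm)) (hle hmg)
    rwa [inv_mul_cancel_left] at this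

end Wr

end Pool.Agent.H61.CM
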