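import Pool.Agent.H61.CM.Coatom

/-!
# Complements of the stabilisers
-/

namespace Pool.Agent.H61.CM

open Equiv

/-- every maximal subgroup of `G` has a complement in `G` -/
def MaxComp (G : Type*) [Group G] : Prop :=
  ∀ M : Subgroup G, IsCoatom M → ∃ K : Subgroup G,
    (∀ g : G, ∃ m ∈ M, ∃ k ∈ K, g = m * k) ∧ M ⊓ K = ⊥

namespace Wr

variable {G T ι : Type*} [Group G] [Group T] (W : Wr G T ι) {C : Set (Subgroup T)}

/-- the elements fixing `i` and `R` -/
def S (i : ι) (R : Subgroup T) : Subgroup G where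
  carrier := {g | W.κ g i = i ∧ im (W.a g i) R = R}
  one_mem' := ⟨by simp, im_id (W.a_one i) _⟩
  mul_mem' := by
    rintro g h ⟨h1, h2⟩ ⟨h3, h4⟩
    refine ⟨by rw [map_mul, Perm.mul_apply, h3, h1], ?_⟩
    rw [im_comp (W.cocycle g h i), h3, h4, h2]
  inv_mem' := by
    rintro g ⟨h1, h2⟩
    have h3 : W.κ g⁻¹ i = i := by
      rw [map_inv, Perm.inv_eq_iff_eq]; exact h1.symm
    refine ⟨h3, ?_⟩
    have h4 := im_comp (W.cocycle g⁻¹ g i) R
    rw [h1, h2] at h4
    rw [← h4]
    have h5 : g⁻¹ * g = 1 := inv_mul_cancel g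
    rw [h5]
    exact im_id (W.a_one i) _

theorem mem_S {i : ι} {R : Subgroup T} {g : G} :
    g ∈ W.S i R ↔ W.κ g i = i ∧ im (W.a g i) R = R := Iff.rfl

theorem a_pow {c : G} {i : ι} (hi : W.κ c i = i) (n : ℕ) (t : T) :
    W.a (c ^ n) i t = ((W.a c i : MulAut T) ^ n) t := by
  have hn : ∀ n : ℕ, W.κ (c ^ n) i = i := by
    intro n
    induction n with
    | zero => simp
    | succ n ih => rw [pow_succ, map_mul, Perm.mul_apply, hi, ih]
  induction n with
  | zero => simp only [pow_zero]; exact W.a_one i t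
  | succ n ih =>
    rw [pow_succ', W.cocycle, hn, ih, pow_succ', MulAut.mul_apply]

theorem section_fix {r : ℕ} (hr : r.Prime) {c : G} (hc : c ^ r = 1) (hne : C.Nonempty)
    (haut : ∀ R ∈ C, ∀ φ : T ≃* T, im φ R ∈ C)
    (hfix : ∀ i, W.κ c i = i → ∃ R ∈ C, im (W.a c i) R = R) :
    ∃ y, (∀ i, y i ∈ C) ∧ W.act c y = y := by
  classical
  let s : Setoid ι :=
    { r := fun i j => ∃ n : ℤ, W.κ (c ^ n) i = j
      iseqv :=
        { refl := fun i => ⟨0, by simp⟩
          symm := by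
            rintro i j ⟨n, rfl⟩
            exact ⟨-n, by rw [← Perm.mul_apply, ← map_mul, ← zpow_add]; simp⟩
          trans := by
            rintro i j l ⟨n, rfl⟩ ⟨m, rfl⟩
            exact ⟨m + n, by rw [zpow_add, map_mul, Perm.mul_apply]⟩ } }
  let rep : ι → ι := fun i => (Quotient.mk s i).out
  have hrep : ∀ i, ∃ n : ℤ, W.κ (c ^ n) (rep i) = i := fun i => Quotient.mk_out (s := s) i
  have hrepc : ∀ i, rep (W.κ c i) = rep i := by
    intro i
    have : Quotient.mk s (W.κ c i) = Quotient.mk s i := by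
      apply Quotient.sound
      refine ⟨-1, ?_⟩
      rw [← Perm.mul_apply, ← map_mul]; simp
    change (Quotient.mk s (W.κ c i)).out = _
    rw [this]
  choose n hn using hrep
  have hs0 : ∀ j, ∃ R ∈ C, W.κ c j = j → im (W.a c j) R = R := by
    intro j
    by_cases hj : W.κ c j = j
    · obtain ⟨R, h1, h2⟩ := hfix j hj
      exact ⟨R, h1, fun _ => h2⟩
    · obtain ⟨R, h1⟩ := hne
      exact ⟨R, h1, fun h => absurd h hj⟩
  choose s0 hs0C hs0 using hs0
  have key : ∀ j (m : ℤ), W.κ (c ^ m) j = j → im (W.a (c ^ m) j) (s0 j) = s0 j := by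
    intro j m hm
    by_cases hd : (r : ℤ) ∣ m
    · obtain ⟨k, rfl⟩ := hd
      have h1 : c ^ ((r : ℤ) * k) = 1 := by rw [zpow_mul, zpow_natCast, hc, one_zpow]
      rw [h1]
      exact im_id (W.a_one j) _
    · have hcop : IsCoprime (r : ℤ) m := by
        rw [Int.isCoprime_iff_gcd_eq_one]
        have h1 := (Nat.Prime.coprime_iff_not_dvd hr (n := m.natAbs)).2 (by
          intro h; exact hd (Int.natCast_dvd.2 h))
        simpa [Int.gcd] using h1
      obtain ⟨u, v, huv⟩ := hcop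
      have hc1 : c = (c ^ m) ^ v := by
        have h2 : c ^ (u * r + v * m) = (c ^ m) ^ v := by
          rw [zpow_add, mul_comm u, zpow_mul, zpow_natCast, hc, one_zpow, one_mul,
            mul_comm v, zpow_mul]
        rw [← h2, huv, zpow_one]
      have hcj : W.κ c j = j := by
        have h3 : c ^ m ∈ (MulAction.stabilizer (Perm ι) j).comap W.κ := hm
        have h4 := Subgroup.zpow_mem _ h3 v
        rw [← hc1] at h4
        exact h4
      have h5 : c ∈ W.S j (s0 j) := ⟨hcj, hs0 j hcj⟩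
      exact ((W.S j (s0 j)).zpow_mem h5 m).2
  let y : ι → Subgroup T := fun i => im (W.a (c ^ n i) (rep i)) (s0 (rep i))
  have hy : ∀ i (m : ℤ), W.κ (c ^ m) (rep i) = i →
      im (W.a (c ^ m) (rep i)) (s0 (rep i)) = y i := by
    intro i m hm
    have h1 : W.κ (c ^ (-(n i) + m)) (rep i) = rep i := by
      rw [zpow_add, map_mul, Perm.mul_apply, hm]
      conv_lhs => rw [← hn i]
      have : W.κ (c ^ (-n i)) (W.κ (c ^ n i) (rep i)) = rep i := by
        rw [← Perm.mul_apply, ← map_mul, ← zpow_add]; simp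
      convert this using 3
      exact (hn i).symm ▸ rfl
    have h2 := key (rep i) _ h1
    have h3 : c ^ m = c ^ n i * c ^ (-(n i) + m) := by
      rw [← zpow_add]; congr 1; ring
    have h4 := im_comp (W.cocycle (c ^ n i) (c ^ (-(n i) + m)) (rep i)) (s0 (rep i))
    rw [h2, h1, ← h3] at h4
    exact h4
  refine ⟨y, fun i => haut _ (hs0C _) _, ?_⟩
  funext j
  obtain ⟨i, rfl⟩ := W.κ_surj c j
  rw [W.act_apply]
  have h1 := im_comp (W.cocycle c (c ^ n i) (rep i)) (s0 (rep i))
  rw [hn i] at h1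
  change im (W.a c i) (im (W.a (c ^ n i) (rep i)) (s0 (rep i))) = _
  rw [← h1]
  have h2 := hy (W.κ c i) (1 + n i) (by
    rw [hrepc, zpow_add, zpow_one, map_mul, Perm.mul_apply, hn])
  rw [hrepc, zpow_add, zpow_one] at h2
  exact h2

end Wr

end Pool.Agent.H61.CM
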