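import Pool.Agent.H61.CM.Comp

/-!
# The criterion
-/

namespace Pool.Agent.H61.CM

open Equiv

namespace Wr

variable {G T ι : Type*} [Group G] [Group T] [DecidableEq ι] (W : Wr G T ι)
  {C : Set (Subgroup T)}

theorem exists_comp [IsSimpleGroup T] (hT : ∃ a b : T, a * b ≠ b * a) [Finite ι] [Nonempty ι]
    (hC : Cls T C) (hG : MaxComp G) :
    ∃ K : Subgroup G, (∀ y, Fam C y → ∀ k ∈ K, W.act k y = y → k = 1) ∧
      Nat.card K = Nat.card C ^ Nat.card ι := by
  obtain ⟨R, hR⟩ := hC.ne
  let x : ι → Subgroup T := fun _ => R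
  have hx : Fam C x := fun _ => hR
  obtain ⟨K, hK1, hK2⟩ := hG _ (W.coatom_H hT hC hx)
  have hsurj : ∀ y, Fam C y → ∃ k ∈ K, W.act k y = x := by
    intro y hy
    obtain ⟨m, -, hm⟩ := W.M_trans hC hx hy
    obtain ⟨h, hh, k, hk, hmk⟩ := hK1 m⁻¹
    refine ⟨k, hk, ?_⟩
    have h1 : k = h⁻¹ * m⁻¹ := by rw [hmk]; group
    rw [h1, W.act_mul]
    have h2 : W.act m⁻¹ y = x := by rw [← hm, ← W.act_mul, inv_mul_cancel, W.act_one]
    rw [h2]
    exact (W.H x).inv_mem hh
  have hx1 : ∀ k ∈ K, W.act k x = x → k = 1 := by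
    intro k hk h
    have : k ∈ W.H x ⊓ K := ⟨h, hk⟩
    rw [hK2] at this
    exact Subgroup.mem_bot.1 this
  refine ⟨K, ?_, ?_⟩
  · intro y hy k hk h
    obtain ⟨k', hk', hy'⟩ := hsurj y hy
    have h1 : k' * k * k'⁻¹ = 1 := by
      apply hx1 _ (K.mul_mem (K.mul_mem hk' hk) (K.inv_mem hk'))
      have h3 : W.act k'⁻¹ x = y := by rw [← hy', ← W.act_mul, inv_mul_cancel, W.act_one]
      rw [W.act_mul, W.act_mul, h3, h, hy']
    have h2 : k' * k = k' := by rw [mul_inv_eq_one] at h1; exact h1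
    exact mul_eq_left.1 h2
  · have e : K ≃ (ι → C) := by
      refine Equiv.ofBijective (fun k i => ⟨W.act k x i, W.act_fam hC hx k i⟩) ⟨?_, ?_⟩
      · intro k k' h
        have h1 : W.act k x = W.act k' x := by
          funext i
          exact congrArg Subtype.val (congrFun h i)
        have h2 : W.act ((k' : G)⁻¹ * k) x = x := by
          rw [W.act_mul, h1, ← W.act_mul, inv_mul_cancel, W.act_one]
        have h3 := hx1 _ (K.mul_mem (K.inv_mem k'.2) k.2) h2
        rw [inv_mul_eq_one] at h3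
        exact Subtype.ext h3.symm
      · intro y
        obtain ⟨k, hk, hy⟩ := hsurj (fun i => (y i : Subgroup T)) (fun i => (y i).2)
        refine ⟨⟨k⁻¹, K.inv_mem hk⟩, ?_⟩
        funext i
        apply Subtype.ext
        show W.act k⁻¹ x i = y i
        rw [← hy, ← W.act_mul, inv_mul_cancel, W.act_one]
    rw [Nat.card_congr e, Nat.card_fun]

include W in
/-- The criterion: if some prime divisor `r` of the number of members of the class is such that every
automorphism of order dividing `r` fixes a member, then `G` has a maximal subgroup without a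
complement. -/
theorem criterion [Finite G] [IsSimpleGroup T] (hT : ∃ a b : T, a * b ≠ b * a) [Finite ι]
    [Nonempty ι] (hC : Cls T C) (hG : MaxComp G) {r : ℕ} (hr : r.Prime) (hd : r ∣ Nat.card C)
    (hfix : ∀ φ : MulAut T, φ ^ r = 1 → ∃ R ∈ C, im φ R = R) : False := by
  obtain ⟨K, hK1, hK2⟩ := W.exists_comp hT hC hG
  have : Fact r.Prime := ⟨hr⟩
  have hd' : r ∣ Nat.card K := by
    rw [hK2]
    exact dvd_pow hd (Nat.card_pos (α := ι)).ne'
  obtain ⟨c, hc⟩ := exists_prime_orderOf_dvd_card' r hd'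
  have hcr : (c : G) ^ r = 1 := by
    rw [← hc]
    have := pow_orderOf_eq_one c
    exact congrArg Subtype.val this
  obtain ⟨y, hy, hcy⟩ := W.section_fix hr hcr hC.ne hC.aut (fun i hi => by
    apply hfix (W.a c i)
    ext t
    rw [← W.a_pow hi, hcr]
    exact W.a_one i t)
  have h1 := hK1 y hy c c.2 hcy
  have h2 : c = 1 := Subtype.ext h1
  rw [h2, orderOf_one] at hc
  exact hr.one_lt.ne hc

end Wr

end Pool.Agent.H61.CM
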