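import Mathlib

/-!
# A binomial coefficient divisible by 2 or 3
-/

namespace Pool.Agent.H61.CM

theorem lucas_step {p n k : ℕ} (hp : p.Prime) (h : p ∣ (n / p).choose k) :
    p ∣ n.choose (p * k) := by
  have : Fact p.Prime := ⟨hp⟩
  have h1 := Choose.choose_modEq_choose_mod_mul_choose_div_nat (n := n) (k := p * k) (p := p)
  rw [Nat.mul_div_cancel_left _ hp.pos] at h1
  exact (h1.dvd_iff dvd_rfl).2 (h.mul_left _)

theorem lucas_pow {p k : ℕ} (hp : p.Prime) (s : ℕ) : ∀ n, p ∣ (n / p ^ s).choose k →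
    p ∣ n.choose (p ^ s * k) := by
  induction s with
  | zero => intro n h; simpa using h
  | succ s ih =>
    intro n h
    rw [pow_succ', mul_assoc]
    apply lucas_step hp
    apply ih
    rwa [Nat.div_div_eq_div_mul, ← pow_succ']

theorem bits2 : ∀ n : ℕ, 1 ≤ n → (∃ j, (n / 2 ^ j) % 2 = 0 ∧ 2 ^ (j + 1) ≤ n) ∨
    ∃ t, n + 1 = 2 ^ t := by
  intro n
  induction n using Nat.strong_induction_on with
  | _ n ih =>
    intro hn
    by_cases h1 : n = 1
    · exact Or.inr ⟨1, by rw [h1]; norm_num⟩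
    by_cases h2 : n % 2 = 0
    · exact Or.inl ⟨0, by simpa using h2, by omega⟩
    rcases ih (n / 2) (by omega) (by omega) with ⟨j, hj1, hj2⟩ | ⟨t, ht⟩
    · refine Or.inl ⟨j + 1, ?_, ?_⟩
      · rw [pow_succ', ← Nat.div_div_eq_div_mul]; exact hj1
      · rw [pow_succ']; omega
    · refine Or.inr ⟨t + 1, ?_⟩
      rw [pow_succ']; omega

theorem digits3 : ∀ n : ℕ, 1 ≤ n → (∃ j, (n / 3 ^ j) % 3 ≠ 2 ∧ 3 ^ (j + 1) ≤ n) ∨
    ∃ v, n + 1 = 2 * 3 ^ v ∨ n + 1 = 3 * 3 ^ v := by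
  intro n
  induction n using Nat.strong_induction_on with
  | _ n ih =>
    intro hn
    by_cases h1 : n = 1
    · exact Or.inr ⟨0, Or.inl (by rw [h1]; norm_num)⟩
    by_cases h2 : n = 2
    · exact Or.inr ⟨0, Or.inr (by rw [h2]; norm_num)⟩
    by_cases h3 : n % 3 ≠ 2
    · exact Or.inl ⟨0, by simpa using h3, by omega⟩
    rcases ih (n / 3) (by omega) (by omega) with ⟨j, hj1, hj2⟩ | ⟨v, hv⟩
    · refine Or.inl ⟨j + 1, ?_, ?_⟩
      · rw [pow_succ', ← Nat.div_div_eq_div_mul]; exact hj1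
      · rw [pow_succ']; omega
    · refine Or.inr ⟨v + 1, ?_⟩
      rw [pow_succ']; omega

theorem three_pow_mod (w : ℕ) : 3 ^ w % 8 = 1 ∨ 3 ^ w % 8 = 3 := by
  induction w with
  | zero => simp
  | succ w ih => rw [pow_succ]; omega

theorem nt1 {s w : ℕ} (hs : 3 ≤ s) (h : 2 ^ s + 1 = 3 ^ w) : s = 3 := by
  obtain ⟨s', rfl⟩ : ∃ s', s = s' + 3 := ⟨s - 3, by omega⟩
  have h8 : 2 ^ (s' + 3) = 8 * 2 ^ s' := by rw [pow_add]; ring
  have hw : w % 2 = 0 := by
    by_contra hw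
    obtain ⟨u, rfl⟩ : ∃ u, w = 2 * u + 1 := ⟨w / 2, by omega⟩
    have h9 : ∀ u, 9 ^ u % 8 = 1 := by
      intro u
      induction u with
      | zero => simp
      | succ u ih => rw [pow_succ]; omega
    have h10 : 3 ^ (2 * u + 1) = 9 ^ u * 3 := by rw [pow_succ, pow_mul]; norm_num
    have := h9 u
    omega
  obtain ⟨u, rfl⟩ : ∃ u, w = 2 * u := ⟨w / 2, by omega⟩
  have h3 : 1 ≤ 3 ^ u := Nat.one_le_pow _ _ (by norm_num)
  have hfac : (3 ^ u - 1) * (3 ^ u + 1) = 2 ^ (s' + 3) := by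
    obtain ⟨c, hc⟩ : ∃ c, 3 ^ u = c + 1 := ⟨3 ^ u - 1, by omega⟩
    have h4 : 3 ^ (2 * u) = (c + 1) * (c + 1) := by rw [two_mul, pow_add, hc]
    rw [h4] at h
    rw [hc, Nat.add_sub_cancel]
    nlinarith
  obtain ⟨a, -, ha⟩ := (Nat.dvd_prime_pow Nat.prime_two).1 (Dvd.intro _ hfac)
  obtain ⟨b, -, hb⟩ := (Nat.dvd_prime_pow Nat.prime_two).1 (Dvd.intro_left _ hfac)
  have hab : 2 ^ a + 2 = 2 ^ b := by omega
  have ha1 : a = 1 := by
    rcases Nat.lt_or_ge a 2 with h | h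
    · interval_cases a
      · exfalso
        rcases Nat.eq_zero_or_pos b with h0 | h0
        · rw [h0] at hab; norm_num at hab
        · obtain ⟨b', rfl⟩ : ∃ b', b = b' + 1 := ⟨b - 1, by omega⟩
          rw [pow_succ] at hab; omega
      · rfl
    · exfalso
      obtain ⟨a', rfl⟩ : ∃ a', a = a' + 2 := ⟨a - 2, by omega⟩
      have hb2 : 2 ≤ b := by
        by_contra hb2
        have : b ≤ 1 := by omega
        have h5 : 2 ^ b ≤ 2 := by
          calc 2 ^ b ≤ 2 ^ 1 := Nat.pow_le_pow_right (by norm_num) this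
            _ = 2 := by norm_num
        have h6 : 1 ≤ 2 ^ (a' + 2) := Nat.one_le_pow _ _ (by norm_num)
        omega
      obtain ⟨b', rfl⟩ : ∃ b', b = b' + 2 := ⟨b - 2, by omega⟩
      rw [pow_add, pow_add] at hab
      omega
  rw [ha1] at ha
  have h3u : 3 ^ u = 3 := by omega
  have h7 : 3 ^ (2 * u) = 9 := by rw [two_mul, pow_add, h3u]; norm_num
  have h5 : 2 ^ s' = 1 := by omega
  have : s' = 0 := by
    by_contra h0
    have : 2 ^ 1 ≤ 2 ^ s' := Nat.pow_le_pow_right (by norm_num) (by omega)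
    omega
  omega

theorem exists_ell {m : ℕ} (hm : 8 ≤ m) (h15 : m ≠ 15) :
    ∃ l r : ℕ, r.Prime ∧ r ∣ l ∧ 2 ≤ l ∧ l < m ∧ 2 * l ≠ m ∧ r ∣ m.choose l := by
  rcases bits2 (m / 2) (by omega) with ⟨j, hj1, hj2⟩ | ⟨t, ht⟩
  · by_cases hmj : m = 2 ^ (j + 2)
    · have hj : 1 ≤ j := by
        by_contra h
        have : j = 0 := by omega
        rw [this] at hmj; norm_num at hmj; omega
      obtain ⟨i, rfl⟩ : ∃ i, j = i + 1 := ⟨j - 1, by omega⟩
      refine ⟨2, 2, Nat.prime_two, dvd_rfl, le_rfl, by omega, by omega, ?_⟩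
      apply lucas_step (k := 1) Nat.prime_two
      rw [Nat.choose_one_right, hmj, pow_succ, Nat.mul_div_cancel _ (by norm_num), pow_succ]
      exact Dvd.intro_left _ rfl
    · have h1 : 2 ^ (j + 2) ≤ m := by rw [pow_succ]; omega
      have h2 : 2 ^ (j + 2) = 2 * 2 ^ (j + 1) := by rw [pow_succ]; ring
      have h3 : 1 ≤ 2 ^ j := Nat.one_le_pow _ _ (by norm_num)
      have h4 : 2 ^ (j + 1) = 2 * 2 ^ j := by rw [pow_succ]; ring
      refine ⟨2 ^ (j + 1), 2, Nat.prime_two, ⟨2 ^ j, h4⟩, by omega, by omega, by omega, ?_⟩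
      have h5 := lucas_pow (k := 1) Nat.prime_two (j + 1) m (by
        rw [Nat.choose_one_right, pow_succ', ← Nat.div_div_eq_div_mul]
        exact Nat.dvd_of_mod_eq_zero hj1)
      rwa [mul_one] at h5
  · -- `m = 2 ^ (t + 1) - 1` or `2 ^ (t + 1) - 2`
    have ht3 : 3 ≤ t := by
      by_contra h
      have : 2 ^ t ≤ 2 ^ 2 := Nat.pow_le_pow_right (by norm_num) (by omega)
      omega
    obtain ⟨t', rfl⟩ : ∃ t', t = t' + 3 := ⟨t - 3, by omega⟩
    have h8 : 2 ^ (t' + 3) = 8 * 2 ^ t' := by rw [pow_add]; ring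
    rcases digits3 (m / 3) (by omega) with ⟨j, hj1, hj2⟩ | ⟨v, hv⟩
    · have h1 : 3 ^ (j + 2) ≤ m := by rw [pow_succ]; omega
      have h2 : 3 ^ (j + 2) = 3 * 3 ^ (j + 1) := by rw [pow_succ]; ring
      have h3 : 1 ≤ 3 ^ j := Nat.one_le_pow _ _ (by norm_num)
      have h4 : 3 ^ (j + 1) = 3 * 3 ^ j := by rw [pow_succ]; ring
      refine ⟨3 ^ (j + 1) * 2, 3, Nat.prime_three, ⟨3 ^ j * 2, by rw [h4]; ring⟩, by omega,
        by omega, by omega, ?_⟩
      apply lucas_pow Nat.prime_three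
      rw [pow_succ', ← Nat.div_div_eq_div_mul]
      have : Fact (Nat.Prime 3) := ⟨Nat.prime_three⟩
      have h5 := Choose.choose_modEq_choose_mod_mul_choose_div_nat (n := m / 3 / 3 ^ j) (k := 2)
        (p := 3)
      apply (h5.dvd_iff dvd_rfl).2
      have h6 : (m / 3 / 3 ^ j) % 3 < 3 := Nat.mod_lt _ (by norm_num)
      have h7 : ((m / 3 / 3 ^ j) % 3).choose (2 % 3) = 0 := by
        apply Nat.choose_eq_zero_of_lt
        omega
      rw [h7, zero_mul]
      exact dvd_zero _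
    · exfalso
      have hw : 3 ^ (v + 1) = 3 * 3 ^ v := by rw [pow_succ]; ring
      have hw2 : 3 ^ (v + 2) = 9 * 3 ^ v := by rw [pow_add]; ring
      have hodd := three_pow_mod v
      rcases hv with hv | hv
      · -- `2 ^ (t + 1) + c = 2 * 3 ^ (v + 1)`
        have h9 : 2 ^ (t' + 3) + 1 = 3 ^ (v + 1) ∨ 2 ^ (t' + 3) = 3 ^ (v + 1) := by omega
        rcases h9 with h9 | h9
        · have h10 := nt1 (by omega) h9
          have h11 : t' = 0 := by omega
          rw [h11] at h8 ht h9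
          norm_num at h8 ht h9
          have h12 : m = 14 ∨ m = 15 := by omega
          rcases h12 with h12 | h12
          · rw [h12] at hv; norm_num at hv; omega
          · exact h15 h12
        · have := three_pow_mod (v + 1); omega
      · have h9 : 2 ^ (t' + 4) + 1 = 3 ^ (v + 2) ∨ 2 ^ (t' + 4) = 3 ^ (v + 2) + 1 := by
          have : 2 ^ (t' + 4) = 2 * 2 ^ (t' + 3) := by rw [pow_succ]; ring
          omega
        rcases h9 with h9 | h9
        · have := nt1 (by omega) h9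
          omega
        · have h10 := three_pow_mod (v + 2)
          have : 2 ^ (t' + 4) = 16 * 2 ^ t' := by rw [pow_add]; ring
          omega

end Pool.Agent.H61.CM
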