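import Pool.Agent.H61.CM.AltCls
import Pool.Agent.H61.CM.Odd
import Pool.Agent.H61.CM.Ell

/-!
# The two-primes argument (degrees 7 and 15)
-/

namespace Pool.Agent.H61.CM

open Equiv MulAction

theorem no_pair {m r s : ℕ} (hr : r.Prime) (hs : s.Prime) (h3 : 3 ≤ s) (hrs : r = s + 2)
    (hm : m < r + s) {P : Subgroup (Perm (Fin m))} (h2 : ¬ 2 ∣ Nat.card P)
    (hrP : r ∣ Nat.card P) (hsP : s ∣ Nat.card P)
    (hn : ∀ n, r < n → n ≤ m → ¬ n ∣ Nat.card P) : False := by
  classical
  have : Fact r.Prime := ⟨hr⟩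
  have : Fact s.Prime := ⟨hs⟩
  obtain ⟨d, hd⟩ := exists_prime_orderOf_dvd_card' r hrP
  obtain ⟨c, hc⟩ := exists_prime_orderOf_dvd_card' s hsP
  have hmove : ∀ e : P, e ≠ 1 → ∃ x, (e : Perm (Fin m)) x ≠ x := by
    intro e he
    by_contra hcon
    push Not at hcon
    exact he (Subtype.ext (Equiv.ext hcon))
  have hd1 : d ≠ 1 := by
    rintro rfl
    rw [orderOf_one] at hd
    exact hr.one_lt.ne hd
  have hc1 : c ≠ 1 := by
    rintro rfl
    rw [orderOf_one] at hc
    exact hs.one_lt.ne hc
  have hdr : (d : Perm (Fin m)) ^ r = 1 := by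
    rw [← hd]; exact congrArg Subtype.val (pow_orderOf_eq_one d)
  have hcs : c ^ s = 1 := by
    rw [← hc]; exact pow_orderOf_eq_one c
  obtain ⟨x, hx⟩ := hmove d hd1
  obtain ⟨y, hy⟩ := hmove c hc1
  let O : Set (Fin m) := orbit P x
  let Of : Finset (Fin m) := Finset.univ.filter (fun z => z ∈ O)
  have hOf : ∀ z, z ∈ Of ↔ z ∈ O := by intro z; simp [Of]
  have hOc : Nat.card O = Of.card := by
    rw [Nat.card_eq_fintype_card, ← Fintype.card_coe]
    apply Fintype.card_congr
    exact Equiv.subtypeEquivRight fun z => (hOf z).symm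
  have h1 : r ≤ Of.card := by
    apply le_card_of_moved hr _ hdr hx
    intro i
    rw [hOf]
    exact ⟨d ^ i, rfl⟩
  have h4 : Of.card ≤ m := by
    have := Finset.card_le_univ Of
    rwa [Fintype.card_fin] at this
  have h5 : Nat.card O ∣ Nat.card P := by
    rw [Nat.card_coe_set_eq, ← MulAction.index_stabilizer]
    exact Subgroup.index_dvd_card _
  have h6 : Of.card = r := by
    rcases h1.eq_or_lt with h | h
    · exact h.symm
    · exact absurd (hOc ▸ h5) (hn _ h h4)
  have hyO : y ∈ O := by
    by_contra hyO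
    have h7 := le_card_of_moved hs (c : Perm (Fin m)) (by
        exact congrArg Subtype.val hcs) hy Ofᶜ (by
      intro i
      rw [Finset.mem_compl, hOf]
      intro h
      apply hyO
      obtain ⟨g, hg⟩ := h
      have hg' : g • x = (c ^ i : P) • y := hg
      refine ⟨(c ^ i)⁻¹ * g, ?_⟩
      show ((c ^ i)⁻¹ * g) • x = y
      rw [mul_smul, hg', inv_smul_smul])
    rw [Finset.card_compl, Fintype.card_fin, h6] at h7
    omega
  let _ : Fintype O := Fintype.ofFinite _
  have hO : Fintype.card O = s + 2 := by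
    rw [← Nat.card_eq_fintype_card, hOc, h6, hrs]
  exact odd_two (P := P) (O := O) hs h3 hO h2 c hcs ⟨y, hyO⟩ (by
    intro h
    apply hy
    exact congrArg Subtype.val h)

/-- the permutation inducing an automorphism of `Alt(m)` -/
theorem exists_autHom {m : ℕ} (hm : 5 ≤ m) (h6 : m ≠ 6) :
    ∃ j : MulAut (alternatingGroup (Fin m)) →* Perm (Fin m), Function.Injective j := by
  choose σ hσ using alt_aut (m := m) hm h6
  have huniq : ∀ u v : Perm (Fin m),
      (∀ t : alternatingGroup (Fin m), u * t * u⁻¹ = v * t * v⁻¹) → u = v := by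
    intro u v h
    have h1 : v⁻¹ * u = 1 := by
      apply perm_eq_one (by omega)
      intro t
      have h2 := h t
      have h3 : v⁻¹ * u * (t : Perm (Fin m)) * (v⁻¹ * u)⁻¹ =
          v⁻¹ * (u * (t : Perm (Fin m)) * u⁻¹) * v := by group
      rw [h3, h2]; group
    rw [inv_mul_eq_one] at h1
    exact h1.symm
  refine ⟨MonoidHom.mk' σ ?_, ?_⟩
  · intro φ ψ
    apply huniq
    intro t
    rw [← hσ, MulAut.mul_apply, hσ, hσ]; group
  · intro φ ψ h
    have h' : σ φ = σ ψ := h
    ext t : 2
    rw [hσ, hσ, h']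

theorem exists_both {G ι : Type*} [Group G] [Finite G] [DecidableEq ι] [Fintype ι] [Nonempty ι]
    {m l r s : ℕ} (hm : 5 ≤ m) (h6 : m ≠ 6) (h2l : 2 ≤ l) (hl : l < m) (hne : 2 * l ≠ m)
    (W : Wr G (alternatingGroup (Fin m)) ι) (hG : MaxComp G) (hr : r.Prime) (hs : s.Prime)
    (hr3 : 3 ≤ r) (hs3 : 3 ≤ s) (hrl : r ∣ m.choose l) (hsl : s ∣ m.choose l)
    (hrm : padicValNat r m.factorial ≤ 1) (hsm : padicValNat s m.factorial ≤ 1) :
    ∃ P : Subgroup (Perm (Fin m)), r ∣ Nat.card P ∧ s ∣ Nat.card P ∧
      ∀ p : ℕ, p.Prime → p ∣ Nat.card P → p ∣ m.choose l := by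
  classical
  have h5 : 5 ≤ Nat.card (Fin m) := by rw [Nat.card_eq_fintype_card, Fintype.card_fin]; omega
  have := alternatingGroup.isSimpleGroup h5
  have hT : ∃ a b : alternatingGroup (Fin m), a * b ≠ b * a := by
    have := Pool.Agent.H61.IG.Alt.alt_noncomm (n := m) (by omega)
    push Not at this
    exact this
  have hC := cls_CA hm h6 h2l hl hne
  obtain ⟨K, hK1, hK2⟩ := W.exists_comp hT hC hG
  rw [card_CA hm h6 h2l hl hne, Nat.card_eq_fintype_card (α := ι)] at hK2
  obtain ⟨j, hj⟩ := exists_autHom (m := m) hm h6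
  let κK : K →* Perm ι := W.κ.comp K.subtype
  have hκ : ∀ g : κK.ker, W.κ ((g : K) : G) = 1 := fun g => g.2
  let q : ι → (κK.ker →* MulAut (alternatingGroup (Fin m))) := fun i =>
    MonoidHom.mk' (fun g => W.a ((g : K) : G) i) (by
      intro g h
      ext t : 1
      show W.a (((g : K) : G) * ((h : K) : G)) i t = _
      rw [W.cocycle, hκ h]
      rfl)
  have hq : ∀ i g, q i g = W.a ((g : K) : G) i := fun _ _ => rfl
  let P : ι → Subgroup (Perm (Fin m)) := fun i => (j.comp (q i)).range
  have hPK : ∀ i, Nat.card (P i) ∣ Nat.card K := fun i =>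
    (Subgroup.card_range_dvd _).trans (Subgroup.card_subgroup_dvd_card _)
  have hPm : ∀ i, Nat.card (P i) ∣ m.factorial := by
    intro i
    have h := Subgroup.card_subgroup_dvd_card (P i)
    rwa [Nat.card_eq_fintype_card (α := Perm (Fin m)), Fintype.card_perm, Fintype.card_fin] at h
  have hpos : ∀ i, Nat.card (P i) ≠ 0 := fun i => Nat.card_pos.ne'
  -- the kernel embeds into the product
  have hker : Nat.card κK.ker ∣ ∏ i, Nat.card (P i) := by
    rw [← Nat.card_pi]
    apply Subgroup.card_dvd_of_injective (MonoidHom.pi fun i => (j.comp (q i)).rangeRestrict)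
    rw [← MonoidHom.ker_eq_bot_iff, eq_bot_iff]
    intro g hg
    rw [MonoidHom.mem_ker] at hg
    have h1 : ∀ i, q i g = 1 := by
      intro i
      apply hj
      rw [map_one]
      exact congrArg Subtype.val (congrFun hg i)
    obtain ⟨R, hR⟩ := hC.ne
    have h2 : ((g : K) : G) = 1 := by
      apply hK1 (fun _ => R) (fun _ => hR) _ (g : K).2
      funext i
      have h3 := W.act_apply ((g : K) : G) (fun _ => R) i
      rw [hκ g, Perm.one_apply] at h3
      rw [h3]
      apply im_id
      intro t
      rw [← hq, h1]; rfl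
    rw [Subgroup.mem_bot]
    exact Subtype.ext (Subtype.ext h2)
  have hrange : Nat.card κK.range ∣ (Fintype.card ι).factorial := by
    have h := Subgroup.card_subgroup_dvd_card κK.range
    rwa [Nat.card_eq_fintype_card (α := Perm ι), Fintype.card_perm] at h
  have hdvd : m.choose l ^ Fintype.card ι ∣ (∏ i, Nat.card (P i)) * (Fintype.card ι).factorial := by
    rw [← hK2, ← Subgroup.card_mul_index κK.ker, Subgroup.index_ker]
    exact mul_dvd_mul hker hrange
  have hcount : ∀ p : ℕ, p.Prime → 3 ≤ p → p ∣ m.choose l → padicValNat p m.factorial ≤ 1 →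
      Fintype.card ι < 2 * (Finset.univ.filter (fun i => p ∣ Nat.card (P i))).card := by
    intro p hp hp3 hpl hpm
    have : Fact p.Prime := ⟨hp⟩
    have h1 : p ^ Fintype.card ι ∣ (∏ i, Nat.card (P i)) * (Fintype.card ι).factorial :=
      (pow_dvd_pow_of_dvd hpl _).trans hdvd
    have hprod : (∏ i, Nat.card (P i)) ≠ 0 := Finset.prod_ne_zero_iff.2 fun i _ => hpos i
    have h2 : Fintype.card ι ≤ padicValNat p (∏ i, Nat.card (P i)) +
        padicValNat p (Fintype.card ι).factorial := by
      rw [← padicValNat.mul hprod (Nat.factorial_ne_zero _)]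
      exact (padicValNat_dvd_iff_le (mul_ne_zero hprod (Nat.factorial_ne_zero _))).1 h1
    have h3 : padicValNat p (∏ i, Nat.card (P i)) ≤
        (Finset.univ.filter (fun i => p ∣ Nat.card (P i))).card := by
      have hsum : ∀ S : Finset ι, padicValNat p (∏ i ∈ S, Nat.card (P i)) =
          ∑ i ∈ S, padicValNat p (Nat.card (P i)) := by
        intro S
        induction S using Finset.induction_on with
        | empty => simp
        | insert i S hi ih =>
          rw [Finset.prod_insert hi, Finset.sum_insert hi, padicValNat.mul (hpos i)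
            (Finset.prod_ne_zero_iff.2 fun i _ => hpos i), ih]
      rw [hsum, Finset.card_filter]
      apply Finset.sum_le_sum
      intro i _
      split_ifs with h
      · exact ((padicValNat_dvd_iff_le (Nat.factorial_ne_zero m)).1
          (pow_padicValNat_dvd.trans (hPm i))).trans hpm
      · rw [padicValNat.eq_zero_of_not_dvd h]
    have h4 := sub_one_mul_padicValNat_factorial_lt_of_ne_zero p
      (n := Fintype.card ι) Fintype.card_ne_zero
    have h5 : 2 * padicValNat p (Fintype.card ι).factorial ≤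
        (p - 1) * padicValNat p (Fintype.card ι).factorial := Nat.mul_le_mul_right _ (by omega)
    omega
  have hr1 := hcount r hr hr3 hrl hrm
  have hs1 := hcount s hs hs3 hsl hsm
  obtain ⟨i, hi⟩ : ∃ i, i ∈ Finset.univ.filter (fun i => r ∣ Nat.card (P i)) ∩
      Finset.univ.filter (fun i => s ∣ Nat.card (P i)) := by
    by_contra hcon
    push Not at hcon
    have h1 : Disjoint (Finset.univ.filter (fun i => r ∣ Nat.card (P i)))
        (Finset.univ.filter (fun i => s ∣ Nat.card (P i))) := by
      rw [Finset.disjoint_iff_inter_eq_empty]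
      exact Finset.eq_empty_of_forall_notMem hcon
    have h2 := Finset.card_union_of_disjoint h1
    have h3 := Finset.card_le_univ (Finset.univ.filter (fun i => r ∣ Nat.card (P i)) ∪
        Finset.univ.filter (fun i => s ∣ Nat.card (P i)))
    omega
  rw [Finset.mem_inter, Finset.mem_filter, Finset.mem_filter] at hi
  refine ⟨P i, hi.1.2, hi.2.2, ?_⟩
  intro p hp hpP
  have h1 := hpP.trans (hPK i)
  rw [hK2] at h1
  exact hp.dvd_of_dvd_pow h1

/-- no alternating group of degree at least five, except possibly degree six -/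
theorem no_alt {G ι : Type*} [Group G] [Finite G] [Finite ι] [Nonempty ι] {m : ℕ} (hm : 5 ≤ m)
    (h6 : m ≠ 6)
    (W : Wr G (alternatingGroup (Fin m)) ι) (hG : MaxComp G) : False := by
  classical
  cases nonempty_fintype ι
  have h5 : 5 ≤ Nat.card (Fin m) := by rw [Nat.card_eq_fintype_card, Fintype.card_fin]; omega
  have := alternatingGroup.isSimpleGroup h5
  have hT : ∃ a b : alternatingGroup (Fin m), a * b ≠ b * a := by
    have := Pool.Agent.H61.IG.Alt.alt_noncomm (n := m) (by omega)
    push Not at this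
    exact this
  by_cases h7 : m = 7
  · subst h7
    obtain ⟨P, h1, h2, h3⟩ := exists_both (l := 3) (r := 7) (s := 5) hm h6 (by norm_num)
      (by norm_num) (by norm_num) W hG (by norm_num) (by norm_num) (by norm_num) (by norm_num)
      (by decide) (by decide)
      (by
        have : Fact (Nat.Prime 7) := ⟨by norm_num⟩
        have := sub_one_mul_padicValNat_factorial_lt_of_ne_zero 7 (n := 7) (by norm_num)
        omega)
      (by
        have : Fact (Nat.Prime 5) := ⟨by norm_num⟩
        have := sub_one_mul_padicValNat_factorial_lt_of_ne_zero 5 (n := 7) (by norm_num)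
        omega)
    exact no_pair (m := 7) (r := 7) (s := 5) (by norm_num) (by norm_num) (by norm_num) rfl
      (by norm_num) (fun h => absurd (h3 2 Nat.prime_two h) (by decide)) h1 h2
      (fun n h h' => by omega)
  by_cases h15 : m = 15
  · subst h15
    obtain ⟨P, h1, h2, h3⟩ := exists_both (l := 6) (r := 13) (s := 11) hm h6 (by norm_num)
      (by norm_num) (by norm_num) W hG (by norm_num) (by norm_num) (by norm_num) (by norm_num)
      (by decide) (by decide)
      (by
        have : Fact (Nat.Prime 13) := ⟨by norm_num⟩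
        have := sub_one_mul_padicValNat_factorial_lt_of_ne_zero 13 (n := 15) (by norm_num)
        omega)
      (by
        have : Fact (Nat.Prime 11) := ⟨by norm_num⟩
        have := sub_one_mul_padicValNat_factorial_lt_of_ne_zero 11 (n := 15) (by norm_num)
        omega)
    have h2' : ¬ 2 ∣ Nat.card P := fun h => absurd (h3 2 Nat.prime_two h) (by decide)
    have h3' : ¬ 3 ∣ Nat.card P := fun h => absurd (h3 3 Nat.prime_three h) (by decide)
    exact no_pair (m := 15) (r := 13) (s := 11) (by norm_num) (by norm_num) (by norm_num) rfl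
      (by norm_num) h2' h1 h2 (fun n h h' h'' => by
        have : n = 14 ∨ n = 15 := by omega
        rcases this with rfl | rfl
        · exact h2' ((by norm_num : 2 ∣ 14).trans h'')
        · exact h3' ((by norm_num : 3 ∣ 15).trans h''))
  obtain ⟨l, r, hr, hrl, hl2, hlm, hne, hd⟩ : ∃ l r : ℕ, r.Prime ∧ r ∣ l ∧ 2 ≤ l ∧ l < m ∧
      2 * l ≠ m ∧ r ∣ m.choose l := by
    by_cases hm8 : 8 ≤ m
    · exact exists_ell hm8 h15
    · have h5' : m = 5 := by omega
      subst h5'
      exact ⟨2, 2, Nat.prime_two, dvd_rfl, le_rfl, by norm_num, by norm_num, by decide⟩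
  exact W.criterion hT (cls_CA hm h6 hl2 hlm hne) hG hr (by rwa [card_CA hm h6 hl2 hlm hne])
    (fix_CA hm h6 hr hlm.le hrl)

end Pool.Agent.H61.CM
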