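import Mathlib

/-!
# Groups acting on a chief factor `T ^ k`

Used for MP_bc729a_al.  `Wr G T ι` collects the data that `M` is a normal subgroup of `G`, `θ : M → T ^ ι` is
onto, `G` permutes the factors transitively (by `κ`) and acts on them through automorphisms `a`.
-/

namespace Pool.Agent.H61.CM

open Equiv

/-- the image of a subgroup under an automorphism -/
def im {T : Type*} [Group T] (φ : T ≃* T) (R : Subgroup T) : Subgroup T := R.map φ.toMonoidHom

section im
variable {T : Type*} [Group T]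

theorem mem_im {φ : T ≃* T} {R : Subgroup T} {t : T} : t ∈ im φ R ↔ φ.symm t ∈ R := by
  constructor
  · rintro ⟨s, hs, rfl⟩
    simpa using hs
  · intro h
    exact ⟨φ.symm t, h, by simp⟩

theorem apply_mem_im {φ : T ≃* T} {R : Subgroup T} {t : T} : φ t ∈ im φ R ↔ t ∈ R := by
  rw [mem_im]; simp

theorem im_congr {φ ψ : T ≃* T} (h : ∀ t, φ t = ψ t) (R : Subgroup T) : im φ R = im ψ R := by
  have : φ = ψ := MulEquiv.ext h
  rw [this]

theorem im_comp {φ ψ χ : T ≃* T} (h : ∀ t, χ t = φ (ψ t)) (R : Subgroup T) :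
    im χ R = im φ (im ψ R) := by
  ext t
  rw [mem_im, mem_im, mem_im]
  have : χ.symm t = ψ.symm (φ.symm t) := by
    apply χ.injective
    rw [MulEquiv.apply_symm_apply, h, MulEquiv.apply_symm_apply, MulEquiv.apply_symm_apply]
  rw [this]

theorem im_id {φ : T ≃* T} (h : ∀ t, φ t = t) (R : Subgroup T) : im φ R = R := by
  ext t
  rw [mem_im]
  have : φ.symm t = t := by rw [MulEquiv.symm_apply_eq, h]
  rw [this]

theorem im_inj {φ : T ≃* T} {R R' : Subgroup T} (h : im φ R = im φ R') : R = R' := by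
  ext t
  rw [← apply_mem_im (φ := φ), h, apply_mem_im]

theorem im_conj_self {R : Subgroup T} {t : T} (ht : t ∈ R) : im (MulAut.conj t) R = R := by
  ext s
  rw [mem_im]
  have : (MulAut.conj t).symm s = t⁻¹ * s * t := by
    rw [MulEquiv.symm_apply_eq, MulAut.conj_apply]; group
  rw [this]
  constructor
  · intro h
    have h2 := R.mul_mem (R.mul_mem ht h) (R.inv_mem ht)
    have h3 : t * (t⁻¹ * s * t) * t⁻¹ = s := by group
    rwa [h3] at h2
  · intro h
    exact R.mul_mem (R.mul_mem (R.inv_mem ht) h) ht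

end im

/-- wreath data -/
structure Wr (G T ι : Type*) [Group G] [Group T] where
  /-- the normal subgroup -/
  M : Subgroup G
  nor : M.Normal
  /-- the homomorphism onto the power of `T` -/
  θ : M →* (ι → T)
  surj : Function.Surjective θ
  /-- the action on the factors -/
  κ : G →* Perm ι
  /-- the automorphisms induced between the factors -/
  a : G → ι → (T ≃* T)
  compat : ∀ (g : G) (i : ι) (x y : M), (y : G) = g * x * g⁻¹ → θ y (κ g i) = a g i (θ x i)
  trans : ∀ i j, ∃ g, κ g i = j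

namespace Wr

variable {G T ι : Type*} [Group G] [Group T] (W : Wr G T ι)

/-- conjugate of an element of `M` -/
def cn (g : G) (x : W.M) : W.M := ⟨g * x * g⁻¹, W.nor.conj_mem _ x.2 g⟩

theorem θ_cn (g : G) (x : W.M) (i : ι) : W.θ (W.cn g x) (W.κ g i) = W.a g i (W.θ x i) :=
  W.compat g i x _ rfl

theorem cocycle (g h : G) (i : ι) (t : T) : W.a (g * h) i t = W.a g (W.κ h i) (W.a h i t) := by
  obtain ⟨x, hx⟩ := W.surj (fun _ => t)
  have h1 := W.θ_cn h x i
  have h2 := W.θ_cn g (W.cn h x) (W.κ h i)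
  have h3 := W.θ_cn (g * h) x i
  rw [map_mul, Perm.mul_apply] at h3
  have h4 : W.cn (g * h) x = W.cn g (W.cn h x) := by
    apply Subtype.ext
    show g * h * x * (g * h)⁻¹ = g * (h * x * h⁻¹) * g⁻¹
    group
  rw [h4, h2, h1, hx] at h3
  exact h3.symm

theorem a_one (i : ι) (t : T) : W.a 1 i t = t := by
  obtain ⟨x, hx⟩ := W.surj (fun _ => t)
  have h1 := W.compat 1 i x x (by group)
  rw [hx, map_one] at h1
  exact h1.symm

variable [DecidableEq ι]

theorem κ_M [Nontrivial T] {m : G} (hm : m ∈ W.M) : W.κ m = 1 := by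
  ext i
  obtain ⟨t, ht⟩ := exists_ne (1 : T)
  obtain ⟨x, hx⟩ := W.surj (Pi.mulSingle i t)
  have h1 := W.compat m i x (⟨m, hm⟩ * x * ⟨m, hm⟩⁻¹) rfl
  rw [hx, Pi.mulSingle_eq_same, map_mul, map_mul, hx] at h1
  by_contra hne
  have hne' : W.κ m i ≠ i := hne
  simp only [Pi.mul_apply, Pi.mulSingle_eq_of_ne hne'] at h1
  rw [mul_one, ← Pi.mul_apply, ← map_mul, mul_inv_cancel, map_one, Pi.one_apply] at h1
  apply ht
  apply (W.a m i).injective
  rw [← h1, map_one]

theorem a_M [Nontrivial T] {m : G} (hm : m ∈ W.M) (i : ι) (t : T) :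
    W.a m i t = W.θ ⟨m, hm⟩ i * t * (W.θ ⟨m, hm⟩ i)⁻¹ := by
  obtain ⟨x, hx⟩ := W.surj (Pi.mulSingle i t)
  have h1 := W.compat m i x (⟨m, hm⟩ * x * ⟨m, hm⟩⁻¹) rfl
  rw [W.κ_M hm, Perm.one_apply, hx, Pi.mulSingle_eq_same, map_mul, map_mul, hx] at h1
  rw [← h1]
  simp only [Pi.mul_apply, Pi.mulSingle_eq_same, map_inv, Pi.inv_apply]

omit [DecidableEq ι] in
/-- the action of `G` on families of subgroups -/
def act (g : G) (x : ι → Subgroup T) : ι → Subgroup T :=
  fun j => im (W.a g (W.κ g⁻¹ j)) (x (W.κ g⁻¹ j))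

omit [DecidableEq ι] in
theorem act_apply (g : G) (x : ι → Subgroup T) (i : ι) :
    W.act g x (W.κ g i) = im (W.a g i) (x i) := by
  have h : W.κ g⁻¹ (W.κ g i) = i := by
    rw [← Perm.mul_apply, ← map_mul, inv_mul_cancel, map_one, Perm.one_apply]
  unfold act
  rw [h]

omit [DecidableEq ι] in
theorem κ_surj (g : G) (j : ι) : ∃ i, W.κ g i = j := (W.κ g).surjective j

omit [DecidableEq ι] in
theorem act_one (x : ι → Subgroup T) : W.act 1 x = x := by
  funext j
  have := W.act_apply 1 x j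
  rw [map_one, Perm.one_apply] at this
  rw [this]
  exact im_id (W.a_one j) _

omit [DecidableEq ι] in
theorem act_mul (g h : G) (x : ι → Subgroup T) : W.act (g * h) x = W.act g (W.act h x) := by
  funext j
  obtain ⟨i, rfl⟩ := W.κ_surj (g * h) j
  rw [act_apply, map_mul, Perm.mul_apply, act_apply, act_apply]
  exact im_comp (W.cocycle g h i) _

/-- the stabiliser of a family -/
def H (x : ι → Subgroup T) : Subgroup G where
  carrier := {g | W.act g x = x}
  one_mem' := W.act_one x
  mul_mem' := by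
    intro g h hg hh
    change W.act (g * h) x = x
    rw [act_mul, show W.act h x = x from hh, show W.act g x = x from hg]
  inv_mem' := by
    intro g hg
    change W.act g⁻¹ x = x
    conv_lhs => rw [← (show W.act g x = x from hg)]
    rw [← act_mul, inv_mul_cancel, act_one]

omit [DecidableEq ι] in
theorem mem_H {x : ι → Subgroup T} {g : G} : g ∈ W.H x ↔ W.act g x = x := Iff.rfl

theorem act_M [Nontrivial T] {m : G} (hm : m ∈ W.M) (x : ι → Subgroup T) (i : ι) :
    W.act m x i = im (MulAut.conj (W.θ ⟨m, hm⟩ i)) (x i) := by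
  have h := W.act_apply m x i
  rw [W.κ_M hm, Perm.one_apply] at h
  rw [h]
  apply im_congr
  intro t
  rw [W.a_M hm, MulAut.conj_apply]

end Wr

/-- a conjugacy class of maximal subgroups which is invariant under all automorphisms -/
structure Cls (T : Type*) [Group T] (C : Set (Subgroup T)) : Prop where
  ne : C.Nonempty
  coatom : ∀ R ∈ C, IsCoatom R
  conj : ∀ R ∈ C, ∀ R' ∈ C, ∃ t : T, im (MulAut.conj t) R = R'
  aut : ∀ R ∈ C, ∀ φ : T ≃* T, im φ R ∈ C

section simple
variable {T : Type*} [Group T] [IsSimpleGroup T]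

omit [IsSimpleGroup T] in
theorem coatom_ne_bot (hT : ∃ a b : T, a * b ≠ b * a) {R : Subgroup T} (hR : IsCoatom R) :
    R ≠ ⊥ := by
  rintro rfl
  obtain ⟨a, b, hab⟩ := hT
  have hb : b ≠ 1 := by rintro rfl; simp at hab
  have h1 : Subgroup.zpowers b ≠ ⊥ := by
    intro h
    exact hb (Subgroup.zpowers_eq_bot.1 h)
  have h2 : Subgroup.zpowers b = ⊤ := hR.2 _ (bot_lt_iff_ne_bot.2 h1)
  have ha : a ∈ Subgroup.zpowers b := by rw [h2]; trivial
  obtain ⟨n, rfl⟩ := Subgroup.mem_zpowers_iff.1 ha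
  exact hab ((Commute.refl b).zpow_left n)

theorem coatom_not_normal (hT : ∃ a b : T, a * b ≠ b * a) {R : Subgroup T} (hR : IsCoatom R) :
    ∃ t, im (MulAut.conj t) R ≠ R := by
  by_contra hcon
  push Not at hcon
  have hn : R.Normal := by
    refine ⟨fun r hr t => ?_⟩
    have h := hcon t
    rw [← h, ← MulAut.conj_apply, apply_mem_im]
    exact hr
  rcases hn.eq_bot_or_eq_top with h | h
  · exact coatom_ne_bot hT hR h
  · exact hR.1 h

end simple

end Pool.Agent.H61.CM
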